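import Mathlib

/-!
# Spaces with an orthogonality structure: the tangent space of the initial degenerations of a
finite linear system closed under the Frobenius map.
-/

set_option autoImplicit false

open Finsupp

namespace Pool.Agent.Helper50.Add

section core

variable {k₀ κ V I : Type*} [Field k₀] [Field κ] [Algebra k₀ κ] [AddCommGroup V] [Module k₀ V]

/-- The function `f` restricted to the indices of weight `s`. -/
noncomputable def gr (ω : I → ℤ) (f : I → κ) (s : ℤ) (i : I) : κ := by
  classical exact if ω i = s then f i else 0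

/-- The weights `ω` and the values `η` satisfy the initial forms of all linear relations between
the elements `g i`. -/
def Trop (k₀ : Type*) {κ V I : Type*} [Field k₀] [Field κ] [Algebra k₀ κ] [AddCommGroup V]
    [Module k₀ V] (g : I → V) (ω : I → ℤ) (η : I → κ) : Prop :=
  ∀ c : I →₀ k₀, linearCombination k₀ g c = 0 → ∀ s, (∀ i ∈ c.support, s ≤ ω i) →
    linearCombination k₀ (gr ω η s) c = 0

variable {g : I → V} {ω : I → ℤ} {η : I → κ}

/-- The initial form of the element `g i`. -/
noncomputable def ini (ω : I → ℤ) (η : I → κ) (i : I) : ℤ → κ := Pi.single (ω i) (η i)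

lemma lc_gr_eq {f : I → κ} {c : I →₀ k₀} {s : ℤ} (h : ∀ b ∈ c.support, ω b = s) :
    linearCombination k₀ (gr ω f s) c = linearCombination k₀ f c := by
  rw [linearCombination_apply, linearCombination_apply]
  refine Finsupp.sum_congr fun i hi => ?_
  rw [gr, if_pos (h i hi)]

lemma lc_gr_zero {f : I → κ} {c : I →₀ k₀} {s : ℤ} (h : ∀ b ∈ c.support, ω b ≠ s) :
    linearCombination k₀ (gr ω f s) c = 0 := by
  rw [linearCombination_apply, Finsupp.sum]
  refine Finset.sum_eq_zero fun i hi => ?_
  rw [gr, if_neg (h i hi), smul_zero]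

lemma lc_ini_apply (c : I →₀ k₀) (s : ℤ) :
    linearCombination k₀ (ini ω η) c s = linearCombination k₀ (gr ω η s) c := by
  rw [linearCombination_apply, linearCombination_apply, Finsupp.sum, Finsupp.sum,
    Finset.sum_apply]
  refine Finset.sum_congr rfl fun i _ => ?_
  rw [Pi.smul_apply, ini, gr]
  by_cases h : ω i = s
  · rw [if_pos h, h, Pi.single_eq_same]
  · rw [if_neg h, Pi.single_eq_of_ne (Ne.symm h)]

/-- Elements whose initial forms are combinations of those of `B`. -/
lemma key (hT : Trop k₀ g ω η) (hη : ∀ i, η i ≠ 0)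
    (hg : ∀ v : V, v ≠ 0 → ∃ i, ∃ c : k₀, c ≠ 0 ∧ v = c • g i) (B : Set I) (i : I)
    (hi : ini ω η i ∈ Submodule.span k₀ (ini ω η '' B)) :
    ∃ c : I →₀ k₀, c ∈ supported k₀ k₀ B ∧ (∀ b ∈ c.support, ω b = ω i) ∧
      (g i = linearCombination k₀ g c ∨ ∃ (i' : I) (c' : k₀), c' ≠ 0 ∧ ω i < ω i' ∧
        g i = linearCombination k₀ g c + c' • g i') := by
  classical
  obtain ⟨c0, hc0, hc1⟩ := (Finsupp.mem_span_image_iff_linearCombination k₀).1 hi
  let c : I →₀ k₀ := c0.filter fun b => ω b = ω i
  have hcB : c ∈ supported k₀ k₀ B := by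
    rw [mem_supported] at hc0 ⊢
    intro b hb
    apply hc0
    rw [Finset.mem_coe, Finsupp.support_filter, Finset.mem_filter] at hb
    exact hb.1
  have hcω : ∀ b ∈ c.support, ω b = ω i := by
    intro b hb
    rw [Finsupp.support_filter, Finset.mem_filter] at hb
    exact hb.2
  have hη1 : η i = linearCombination k₀ η c := by
    have h1 := congrFun hc1 (ω i)
    rw [lc_ini_apply, ini, Pi.single_eq_same] at h1
    rw [← h1]
    have h2 : c0 = c + c0.filter fun b => ¬ ω b = ω i := (Finsupp.filter_add_filter_not _ _).symm
    rw [h2, map_add, lc_gr_eq hcω, lc_gr_zero (c := c0.filter fun b => ¬ ω b = ω i), add_zero]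
    intro b hb
    rw [Finsupp.support_filter, Finset.mem_filter] at hb
    exact hb.2
  refine ⟨c, hcB, hcω, ?_⟩
  by_cases hv : g i - linearCombination k₀ g c = 0
  · exact Or.inl (sub_eq_zero.1 hv)
  · obtain ⟨i', c', hc', h2⟩ := hg _ hv
    refine Or.inr ⟨i', c', hc', ?_, by rw [← h2]; abel⟩
    by_contra hlt
    push Not at hlt
    have h3 : linearCombination k₀ g (single i 1 - c - single i' c') = 0 := by
      rw [map_sub, map_sub, linearCombination_single, linearCombination_single, one_smul, h2,
        sub_self]
    have h4 := hT _ h3 (ω i') (by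
      intro b hb
      have h5 : (single i (1 : k₀) - c - single i' c') b ≠ 0 := Finsupp.mem_support_iff.1 hb
      by_cases hb1 : b = i'
      · rw [hb1]
      by_cases hb2 : b = i
      · rw [hb2]
        exact hlt
      have h6 : c b ≠ 0 := by
        intro h7
        apply h5
        rw [Finsupp.sub_apply, Finsupp.sub_apply, h7, Finsupp.single_eq_of_ne hb1,
          Finsupp.single_eq_of_ne hb2]
        simp
      rw [hcω b (Finsupp.mem_support_iff.2 h6)]
      exact hlt)
    rw [map_sub, map_sub, linearCombination_single, linearCombination_single, one_smul] at h4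
    have h5 : gr ω η (ω i') i' = η i' := by rw [gr, if_pos rfl]
    have h6 : gr ω η (ω i') i = linearCombination k₀ (gr ω η (ω i')) c := by
      rcases hlt.lt_or_eq with h7 | h7
      · rw [lc_gr_zero, gr, if_neg h7.ne']
        intro b hb
        rw [hcω b hb]
        exact h7.ne'
      · rw [lc_gr_eq (fun b hb => (hcω b hb).trans h7.symm), ← hη1, gr, if_pos h7.symm]
    rw [h5, h6, sub_self, zero_sub, neg_eq_zero] at h4
    rcases smul_eq_zero.1 h4 with h8 | h8
    · exact hc' h8
    · exact hη i' h8

/-- Orthogonal sets are linearly independent. -/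
lemma indep_of_ini (hT : Trop k₀ g ω η) (B : Set I) (hB : LinearIndepOn k₀ (ini ω η) B) :
    LinearIndepOn k₀ g B := by
  classical
  rw [linearIndepOn_iff] at hB ⊢
  intro c hc h0
  by_contra hne
  have hs : c.support.Nonempty := Finsupp.support_nonempty_iff.2 hne
  obtain ⟨i, hi, hmin⟩ := Finset.exists_min_image c.support ω hs
  have h1 := hT c h0 (ω i) hmin
  let c1 : I →₀ k₀ := c.filter fun b => ω b = ω i
  have hc1ω : ∀ b ∈ c1.support, ω b = ω i := by
    intro b hb
    rw [Finsupp.support_filter, Finset.mem_filter] at hb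
    exact hb.2
  have h2 : linearCombination k₀ (ini ω η) c1 = 0 := by
    funext s
    rw [lc_ini_apply, Pi.zero_apply]
    by_cases hsi : s = ω i
    · rw [hsi, ← h1]
      have h3 : c = c1 + c.filter fun b => ¬ ω b = ω i :=
        (Finsupp.filter_add_filter_not _ _).symm
      conv_rhs => rw [h3]
      rw [map_add, lc_gr_zero (c := c.filter fun b => ¬ ω b = ω i), add_zero]
      intro b hb
      rw [Finsupp.support_filter, Finset.mem_filter] at hb
      exact hb.2
    · exact lc_gr_zero fun b hb => by rw [hc1ω b hb]; exact Ne.symm hsi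
  have h4 : c1 ∈ supported k₀ k₀ B := by
    rw [mem_supported] at hc ⊢
    intro b hb
    apply hc
    rw [Finset.mem_coe, Finsupp.support_filter, Finset.mem_filter] at hb
    exact hb.1
  have h5 := hB c1 h4 h2
  have h6 : c1 i = c i := Finsupp.filter_apply_pos _ _ rfl
  rw [h5] at h6
  exact Finsupp.mem_support_iff.1 hi h6.symm

end core

section tangent

variable {k₀ κ V I : Type*} [Field k₀] [Field κ] [Algebra k₀ κ] [AddCommGroup V] [Module k₀ V]
  [Finite I] [FiniteDimensional k₀ V] {g : I → V} {ω : I → ℤ} {η : I → κ}

/-- The set `B` spans if all initial forms of the elements of `W` are combinations of those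
of `B ⊆ W`. -/
lemma span_of_ini (hT : Trop k₀ g ω η) (hη : ∀ i, η i ≠ 0)
    (hg : ∀ v : V, v ≠ 0 → ∃ i, ∃ c : k₀, c ≠ 0 ∧ v = c • g i) (W : Submodule k₀ V) (B : Set I)
    (hBW : ∀ i ∈ B, g i ∈ W)
    (hB : ∀ i, g i ∈ W → ini ω η i ∈ Submodule.span k₀ (ini ω η '' B)) :
    W ≤ Submodule.span k₀ (g '' B) := by
  classical
  have hfin : (Set.range ω).Finite := Set.finite_range ω
  obtain ⟨N, hN⟩ := hfin.bddAbove
  have h1 : ∀ n : ℕ, ∀ i, N - n ≤ ω i → g i ∈ W → g i ∈ Submodule.span k₀ (g '' B) := by
    intro n
    induction n with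
    | zero =>
      intro i hi hiW
      obtain ⟨c, hc1, hc2, hc3⟩ := key hT hη hg B i (hB i hiW)
      have h2 : linearCombination k₀ g c ∈ Submodule.span k₀ (g '' B) :=
        (Finsupp.mem_span_image_iff_linearCombination k₀).2 ⟨c, hc1, rfl⟩
      rcases hc3 with h3 | ⟨i', c', hc', hlt, h3⟩
      · rw [h3]; exact h2
      · exfalso
        have h4 : ω i' ≤ N := hN ⟨i', rfl⟩
        simp only [Nat.cast_zero, sub_zero] at hi
        omega
    | succ n ih =>
      intro i hi hiW
      obtain ⟨c, hc1, hc2, hc3⟩ := key hT hη hg B i (hB i hiW)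
      have h2 : linearCombination k₀ g c ∈ Submodule.span k₀ (g '' B) :=
        (Finsupp.mem_span_image_iff_linearCombination k₀).2 ⟨c, hc1, rfl⟩
      rcases hc3 with h3 | ⟨i', c', hc', hlt, h3⟩
      · rw [h3]; exact h2
      · have h5 : linearCombination k₀ g c ∈ W := by
          rw [linearCombination_apply]
          refine Submodule.sum_mem _ fun b hb => W.smul_mem _ (hBW b ?_)
          rw [mem_supported] at hc1
          exact hc1 hb
        have h6 : g i' ∈ W := by
          have h7 : c' • g i' ∈ W := by
            have h8 : c' • g i' = g i - linearCombination k₀ g c := by rw [h3]; abel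
            rw [h8]
            exact W.sub_mem hiW h5
          have h9 := W.smul_mem c'⁻¹ h7
          rwa [inv_smul_smul₀ hc'] at h9
        rw [h3]
        refine Submodule.add_mem _ h2 (Submodule.smul_mem _ _ (ih i' ?_ h6))
        push_cast at hi
        omega
  intro v hv
  by_cases hv0 : v = 0
  · rw [hv0]; exact Submodule.zero_mem _
  obtain ⟨i, c, hc, rfl⟩ := hg v hv0
  have h2 : g i ∈ W := by
    have h9 := W.smul_mem c⁻¹ hv
    rwa [inv_smul_smul₀ hc] at h9
  refine Submodule.smul_mem _ _ (h1 (N - ω i).toNat i ?_ h2)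
  have h4 : ω i ≤ N := hN ⟨i, rfl⟩
  omega

/-- The dimension of the tangent space. -/
theorem tangent (hT : Trop k₀ g ω η) (hη : ∀ i, η i ≠ 0)
    (hg : ∀ v : V, v ≠ 0 → ∃ i, ∃ c : k₀, c ≠ 0 ∧ v = c • g i) (W : Submodule k₀ V)
    (A : Submodule κ (I → κ)) (hA : ∀ a ∈ A, Trop k₀ g ω (fun i => η i * a i))
    (hW : ∀ a ∈ A, ∀ i, g i ∈ W → a i = 0) :
    Module.finrank κ A + Module.finrank k₀ W ≤ Module.finrank k₀ V := by
  classical
  have : Fintype I := Fintype.ofFinite I
  -- orthogonal bases
  obtain ⟨BW, hBW1, -, hBW2, hBW3⟩ := exists_linearIndepOn_extension (K := k₀)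
    (v := ini ω η) (s := ∅) (t := {i | g i ∈ W}) (linearIndepOn_empty _ _) (Set.empty_subset _)
  obtain ⟨B, -, hB1, hB2, hB3⟩ := exists_linearIndepOn_extension (K := k₀)
    (v := ini ω η) (s := BW) (t := Set.univ) hBW3 (Set.subset_univ _)
  have hW1 : W ≤ Submodule.span k₀ (g '' BW) :=
    span_of_ini hT hη hg W BW (fun i hi => hBW1 hi)
      fun i hi => hBW2 ⟨i, hi, rfl⟩
  have hBW4 := indep_of_ini hT BW hBW3
  have hB4 := indep_of_ini hT B hB3
  have c1 : Module.finrank k₀ W ≤ BW.ncard := by
    have h1 := Submodule.finrank_mono hW1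
    have h2 : Module.finrank k₀ (Submodule.span k₀ (g '' BW)) ≤ (g '' BW).ncard := by
      have h3 := finrank_span_le_card (R := k₀) (g '' BW)
      rwa [← Set.ncard_eq_toFinset_card'] at h3
    exact (h1.trans h2).trans (Set.ncard_image_le (Set.toFinite _))
  have c2 : B.ncard ≤ Module.finrank k₀ V := by
    have h1 := LinearIndependent.fintype_card_le_finrank hB4
    rwa [← Nat.card_eq_fintype_card] at h1
  -- the tangent space
  have c3 : Module.finrank κ A ≤ (B \ BW).ncard := by
    let φ : A →ₗ[κ] (↥(B \ BW) → κ) :=
      { toFun := fun a i => a.1 i.1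
        map_add' := fun a b => rfl
        map_smul' := fun c a => rfl }
    have hinj : Function.Injective φ := by
      rw [← LinearMap.ker_eq_bot, LinearMap.ker_eq_bot']
      rintro ⟨a, ha⟩ h0
      have hb : ∀ b ∈ B, a b = 0 := by
        intro b hb
        by_cases hbW : b ∈ BW
        · exact hW a ha b (hBW1 hbW)
        · exact congrFun h0 ⟨b, hb, hbW⟩
      apply Subtype.ext
      funext i
      change a i = 0
      obtain ⟨c, hc1, hc2, hc3⟩ := key hT hη hg B i (hB2 ⟨i, trivial, rfl⟩)
      have h7 : linearCombination k₀ (fun i => η i * a i) c = 0 := by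
        rw [linearCombination_apply, Finsupp.sum]
        refine Finset.sum_eq_zero fun j hj => ?_
        rw [mem_supported] at hc1
        rw [hb j (hc1 hj), mul_zero, smul_zero]
      have h8 : η i * a i = 0 := by
        rcases hc3 with h3 | ⟨i', c', hc', hlt, h3⟩
        · have h4 : linearCombination k₀ g (single i 1 - c) = 0 := by
            rw [map_sub, linearCombination_single, one_smul, h3, sub_self]
          have h5 := hA a ha _ h4 (ω i) (by
            intro b hb
            by_cases hb2 : b = i
            · rw [hb2]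
            have h6 : c b ≠ 0 := by
              intro h7
              apply Finsupp.mem_support_iff.1 hb
              rw [Finsupp.sub_apply, h7, Finsupp.single_eq_of_ne hb2]
              simp
            rw [hc2 b (Finsupp.mem_support_iff.2 h6)])
          rw [map_sub, linearCombination_single, one_smul, lc_gr_eq hc2, h7, sub_zero, gr,
            if_pos rfl] at h5
          exact h5
        · have h4 : linearCombination k₀ g (single i 1 - c - single i' c') = 0 := by
            rw [map_sub, map_sub, linearCombination_single, linearCombination_single, one_smul,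
              h3]
            abel
          have h5 := hA a ha _ h4 (ω i) (by
            intro b hb
            by_cases hb1 : b = i'
            · rw [hb1]; exact hlt.le
            by_cases hb2 : b = i
            · rw [hb2]
            have h6 : c b ≠ 0 := by
              intro h7
              apply Finsupp.mem_support_iff.1 hb
              rw [Finsupp.sub_apply, Finsupp.sub_apply, h7, Finsupp.single_eq_of_ne hb2,
                Finsupp.single_eq_of_ne hb1]
              simp
            rw [hc2 b (Finsupp.mem_support_iff.2 h6)])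
          have h9 : gr ω (fun i => η i * a i) (ω i) i' = 0 := by
            rw [gr, if_neg hlt.ne']
          rw [map_sub, map_sub, linearCombination_single, linearCombination_single, one_smul,
            lc_gr_eq hc2, h7, sub_zero, h9, smul_zero, sub_zero, gr, if_pos rfl] at h5
          exact h5
      rcases mul_eq_zero.1 h8 with h9 | h9
      · exact absurd h9 (hη i)
      · exact h9
    have h1 := LinearMap.finrank_le_finrank_of_injective hinj
    rw [Module.finrank_fintype_fun_eq_card, ← Nat.card_eq_fintype_card] at h1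
    exact h1
  have c4 : (B \ BW).ncard + BW.ncard = B.ncard := Set.ncard_sdiff_add_ncard_of_subset hB1
  omega

end tangent

end Pool.Agent.Helper50.Add
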