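import Pool.Graph.R_seed8.TH214.SD.Defs

/-!
# Arrangements of p-polynomials over composita of function fields of surfaces: definitions
-/

set_option autoImplicit false

universe u

open Pool.Agent.TH188.VT Pool.Agent.TH214.SD

namespace Pool.Agent.Helper50.Add

section

variable {k K : Type u} [Field k] [Field K] [Algebra k K] {m n h d q s r o l : ℕ}

/-- The group of the affine `p`-polynomials `a + ∑ i j, a i j * x i ^ (p ^ j)` in the elements
`x 1, ..., x l` of `K`, whose coefficients are elements of `k` algebraic over the prime field, i.e.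
satisfy `a ^ (p ^ N) = a` for some `N > 0`. -/
def pPolynomials (p : ℕ) (k : Type u) {K : Type u} [Field k] [Field K] [Algebra k K] {l : ℕ}
    (x : Fin l → K) : AddSubgroup K :=
  AddSubgroup.closure {b | ∃ a : k, (∃ N, 0 < N ∧ a ^ p ^ N = a) ∧
    (b = algebraMap k K a ∨ ∃ i j, b = algebraMap k K a * x i ^ p ^ j)}

/-- The element `b` of `K` is a product of nonzero affine `p`-polynomials and of inverses of
such. -/
def IsPolynomialProduct (p : ℕ) (k : Type u) {K : Type u} [Field k] [Field K] [Algebra k K]
    {l : ℕ} (x : Fin l → K) (b : K) : Prop :=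
  b ∈ Submonoid.closure {g : K | g ≠ 0 ∧ (g ∈ pPolynomials p k x ∨ g⁻¹ ∈ pPolynomials p k x)}

variable (E : Fin m → IntermediateField k K)

/-- The structure of the subfield generated by the `E i`, the `x j` and the `y j`: `E 1, ..., E m`
are linearly disjoint function fields of surfaces over `k`, the `u a ≠ 0` are products of elements
of the `E i`, of nonzero affine `p`-polynomials in `x 1, ..., x l` and of inverses of such, the
elements `y j ≠ 0` satisfy the equations `G i (u, y) = 0`, where the `G i` are schön
equations of codimension at least `c` with respect to `Y`, and `x 1, ..., x l` and `d = n - c` of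
the `y j`, those with the indices `ρ l`, are algebraically independent over the field generated
by the `E i`. -/
structure IsPolynomialBase (p : ℕ) (x : Fin l → K) (c : ℕ) (u : Fin h → K) (y : Fin n → K)
    (G : Fin q → (Fin h ⊕ Fin n → ℤ) →₀ k) (ρ : Fin d → Fin n) : Prop where
  surfaces : AreIndependentSurfaceFields E
  products : ∀ a, u a ≠ 0 ∧ ∃ (v : ∀ i, E i) (b : K), IsPolynomialProduct p k x b ∧
    u a = (∏ i, (v i : K)) * b
  ne_zero : ∀ j, y j ≠ 0
  equations : ∀ i, value (G i) u y = 0
  schon : SchonEquations G c
  codimension : c + d = n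
  independent : AlgebraicIndependent (IntermediateField.adjoin k (⋃ i, (E i : Set K)))
    (Sum.elim x (y ∘ ρ))

/-- The element `a` of `K` is a product of nonzero elements of the `E i`, of nonzero affine
`p`-polynomials in the `x j`, of inverses of such, and of powers of the `y j`. -/
def IsProductOver (p : ℕ) (x : Fin l → K) (y : Fin n → K) (a : K) : Prop :=
  ∃ (v : ∀ i, E i) (b : K) (e : Fin n → ℤ), (∀ i, v i ≠ 0) ∧ IsPolynomialProduct p k x b ∧
    a = (∏ i, (v i : K)) * b * ∏ j, y j ^ e j

/-- The field `K` is generated over the field of `IsPolynomialBase` by elements `w j` such that the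
elements `w j ^ p - w j` are linear combinations with integral coefficients of functions
`f i ∈ E i` and of the elements `F t (u, y)`, where the Laurent polynomials `F t` are jointly
nondegenerate on the subscheme given by the `G i`, strongly for the indices in `T`, and if there is
an index `t` not in `T` then the `G i` and these `F t` involve only the variables `Y` and those
`U a` for which `u a` is a product of affine `p`-polynomials and inverses of such. -/
structure IsWildPolynomialCover (p : ℕ) (x : Fin l → K) (c : ℕ) (u : Fin h → K) (y : Fin n → K)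
    (G : Fin q → (Fin h ⊕ Fin n → ℤ) →₀ k) (ρ : Fin d → Fin n) (f : ∀ i, E i)
    (F : Fin s → (Fin h ⊕ Fin n → ℤ) →₀ k) (T : Set (Fin s)) (w : Fin r → K) : Prop where
  base : IsPolynomialBase E p x c u y G ρ
  nondegenerate : NondegenerateOn G F T
  untwisted : ∀ t ∉ T,
    (∀ i, ∀ e ∈ (G i).support, ∀ a, ¬ IsPolynomialProduct p k x (u a) → e (Sum.inl a) = 0) ∧
    ∀ e ∈ (F t).support, ∀ a, ¬ IsPolynomialProduct p k x (u a) → e (Sum.inl a) = 0
  roots : ∀ j, w j ^ p - w j ∈ AddSubgroup.closure
    ((Set.range fun i => (f i : K)) ∪ Set.range fun t => value (F t) u y)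
  generate : IntermediateField.adjoin k
    (Set.range w ∪ (Set.range x ∪ (Set.range y ∪ ⋃ i, (E i : Set K)))) = ⊤

/-- The field `K` is generated over the field of `IsPolynomialBase` by elements `w j` such that the
elements `w j ^ p` are linear combinations with coefficients in `k` of products
`g t 1 * ... * g t m` of elements `g t i ∈ E i`, where for each `i` at most one of the `g t i` is
not a `p`-th power in `E i`, and of the elements `F t (u, y)`, where the Laurent polynomials `F t`
are strongly nondegenerate on the subscheme given by the `G i`. -/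
structure IsInseparablePolynomialCover (p : ℕ) (x : Fin l → K) (c : ℕ) (u : Fin h → K)
    (y : Fin n → K) (G : Fin q → (Fin h ⊕ Fin n → ℤ) →₀ k) (ρ : Fin d → Fin n)
    (g : Fin o → ∀ i, E i) (F : Fin s → (Fin h ⊕ Fin n → ℤ) →₀ k) (w : Fin r → K) : Prop where
  base : IsPolynomialBase E p x c u y G ρ
  nondegenerate : StronglyNondegenerateOn G F
  powers : ∀ i t t', t ≠ t' → (∃ b, b ^ p = g t i) ∨ ∃ b, b ^ p = g t' i
  roots : ∀ j, w j ^ p ∈ Submodule.span k
    ((Set.range fun t => ∏ i, (g t i : K)) ∪ Set.range fun t => value (F t) u y)
  generate : IntermediateField.adjoin k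
    (Set.range w ∪ (Set.range x ∪ (Set.range y ∪ ⋃ i, (E i : Set K)))) = ⊤

end

end Pool.Agent.Helper50.Add
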