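import Pool.Agent.Helper50.Add.Core
import Pool.Graph.R_seed8.TH214.SD.Main

/-!
# Laurent polynomials: linear forms, binomials, monomial substitutions
-/

set_option autoImplicit false
set_option linter.unusedVariables false
set_option linter.unusedSectionVars false

universe u

open Finsupp Pool.Agent.TH214 Pool.Agent.TH214.V Pool.Agent.W558

namespace Pool.Agent.Helper50.Add

section sums

variable {J : Type} [Fintype J] [DecidableEq J]

lemma wt_single (l : J → ℤ) (j : J) (a : ℤ) : ∑ i, l i * (Pi.single j a : J → ℤ) i = l j * a := by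
  rw [Finset.sum_eq_single j]
  · rw [Pi.single_eq_same]
  · intro b _ hb
    rw [Pi.single_eq_of_ne hb, mul_zero]
  · intro h
    exact absurd (Finset.mem_univ j) h

lemma prod_single {κ : Type*} [Field κ] (z : J → κ) (j : J) (a : ℤ) :
    ∏ i, z i ^ (Pi.single j a : J → ℤ) i = z j ^ a := by
  rw [Finset.prod_eq_single j]
  · rw [Pi.single_eq_same]
  · intro b _ hb
    rw [Pi.single_eq_of_ne hb, zpow_zero]
  · intro h
    exact absurd (Finset.mem_univ j) h

lemma sum_single' {κ : Type*} [Field κ] (a : J → κ) (j : J) (b : ℤ) :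
    ∑ i, (((Pi.single j b : J → ℤ) i : ℤ) : κ) * a i = (b : κ) * a j := by
  rw [Finset.sum_eq_single j]
  · rw [Pi.single_eq_same]
  · intro c _ hc
    rw [Pi.single_eq_of_ne hc, Int.cast_zero, zero_mul]
  · intro h
    exact absurd (Finset.mem_univ j) h

end sums

section linear

variable {k₀ : Type*} {k κ : Type u} [Field k₀] [Field k] [Field κ] [Algebra k₀ k] [Algebra k κ]
  {I J : Type} [Fintype J] [DecidableEq J]

/-- The exponents of a variable. -/
noncomputable def unitE (ι : I ↪ J) : I ↪ (J → ℤ) where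
  toFun i := Pi.single (ι i) 1
  inj' := by
    intro i j h
    by_contra hne
    have h1 := congrFun h (ι i)
    simp only [Pi.single_eq_same] at h1
    rw [Pi.single_eq_of_ne (fun h => hne (ι.injective h))] at h1
    exact one_ne_zero h1

/-- A linear form. -/
noncomputable def linF (k : Type u) [Field k] [Algebra k₀ k] (ι : I ↪ J) (c : I →₀ k₀) :
    (J → ℤ) →₀ k :=
  (c.mapRange (algebraMap k₀ k) (map_zero _)).embDomain (unitE ι)

lemma linF_support (ι : I ↪ J) (c : I →₀ k₀) :
    (linF k ι c).support = c.support.map (unitE ι) := by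
  rw [linF, Finsupp.support_embDomain,
    Finsupp.support_mapRange_of_injective _ _ (algebraMap k₀ k).injective]

lemma linF_apply (ι : I ↪ J) (c : I →₀ k₀) (i : I) :
    linF k ι c (unitE ι i) = algebraMap k₀ k (c i) := by
  rw [linF, Finsupp.embDomain_apply_self, Finsupp.mapRange_apply]

open Classical in
lemma linF_face (ι : I ↪ J) (c : I →₀ k₀) (l : J → ℤ) :
    face (linF k ι c) l =
      (c.support.filter fun i => ∀ i' ∈ c.support, l (ι i) ≤ l (ι i')).map (unitE ι) := by
  have hw : ∀ i, ∑ j, l j * unitE ι i j = l (ι i) := fun i => by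
    change ∑ j, l j * (Pi.single (ι i) 1 : J → ℤ) j = _
    rw [wt_single, mul_one]
  ext m
  unfold face
  simp only [linF_support, Finset.mem_filter, Finset.mem_map]
  constructor
  · rintro ⟨⟨i, hi, rfl⟩, h⟩
    refine ⟨i, ⟨hi, fun i' hi' => ?_⟩, rfl⟩
    have h1 := h (unitE ι i') ⟨i', hi', rfl⟩
    rwa [hw, hw] at h1
  · rintro ⟨i, ⟨hi, h⟩, rfl⟩
    refine ⟨⟨i, hi, rfl⟩, ?_⟩
    rintro _ ⟨i', hi', rfl⟩
    rw [hw, hw]
    exact h i' hi'

open Classical in
lemma linF_vl (ι : I ↪ J) (c : I →₀ k₀) (l : J → ℤ) (z : J → κ) :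
    vl (linF k ι c) l z =
      ∑ i ∈ c.support.filter fun i => ∀ i' ∈ c.support, l (ι i) ≤ l (ι i'),
        algebraMap k κ (algebraMap k₀ k (c i)) * z (ι i) := by
  unfold vl
  rw [linF_face, Finset.sum_map]
  refine Finset.sum_congr rfl fun i _ => ?_
  rw [linF_apply]
  congr 1
  change ∏ j, z j ^ (Pi.single (ι i) 1 : J → ℤ) j = _
  rw [prod_single, zpow_one]

open Classical in
lemma linF_der (ι : I ↪ J) (c : I →₀ k₀) (l : J → ℤ) (z a : J → κ) :
    der (linF k ι c) l z a =
      ∑ i ∈ c.support.filter fun i => ∀ i' ∈ c.support, l (ι i) ≤ l (ι i'),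
        algebraMap k κ (algebraMap k₀ k (c i)) * (z (ι i) * a (ι i)) := by
  unfold der
  rw [linF_face, Finset.sum_map]
  refine Finset.sum_congr rfl fun i _ => ?_
  rw [linF_apply]
  have h1 : ∏ j, z j ^ unitE ι i j = z (ι i) := by
    change ∏ j, z j ^ (Pi.single (ι i) 1 : J → ℤ) j = _
    rw [prod_single, zpow_one]
  have h2 : ∑ j, (unitE ι i j : κ) * a j = a (ι i) := by
    change ∑ j, (((Pi.single (ι i) 1 : J → ℤ) j : ℤ) : κ) * a j = _
    rw [sum_single', Int.cast_one, one_mul]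
  rw [h1, h2]
  ring

variable [Algebra k₀ κ] [IsScalarTower k₀ k κ] {V : Type*} [AddCommGroup V] [Module k₀ V]

open Classical in
/-- The initial forms of all linear relations. -/
lemma trop_of {g : I → V} {ω : I → ℤ} {f : I → κ}
    (h : ∀ c : I →₀ k₀, linearCombination k₀ g c = 0 →
      ∑ i ∈ c.support.filter fun i => ∀ i' ∈ c.support, ω i ≤ ω i',
        algebraMap k κ (algebraMap k₀ k (c i)) * f i = 0) : Trop k₀ g ω f := by
  intro c hc s hs
  by_cases h1 : ∃ i ∈ c.support, ω i = s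
  · obtain ⟨i0, hi0, h0⟩ := h1
    have h2 := h c hc
    rw [linearCombination_apply, Finsupp.sum]
    rw [Finset.sum_filter] at h2
    rw [← h2]
    refine Finset.sum_congr rfl fun i hi => ?_
    rw [gr]
    by_cases h3 : ω i = s
    · rw [if_pos h3, if_pos (fun i' hi' => h3 ▸ hs i' hi'), Algebra.smul_def,
        IsScalarTower.algebraMap_apply k₀ k κ]
    · rw [if_neg h3, if_neg, smul_zero]
      intro h4
      apply h3
      exact le_antisymm (h0 ▸ h4 i0 hi0) (hs i hi)
  · push Not at h1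
    exact lc_gr_zero h1

end linear

section binomial

variable {k κ : Type u} [Field k] [Field κ] [Algebra k κ] {J : Type} [Fintype J]

/-- A binomial. -/
noncomputable def biF (k : Type u) [Field k] (m m' : J → ℤ) : (J → ℤ) →₀ k :=
  single m 1 - single m' 1

open Classical in
lemma biF_support {m m' : J → ℤ} (h : m ≠ m') : (biF k m m').support = {m, m'} := by
  unfold biF
  rw [sub_eq_add_neg, ← Finsupp.single_neg,
    Finsupp.support_single_add_single h one_ne_zero (neg_ne_zero.2 one_ne_zero)]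

lemma biF_left {m m' : J → ℤ} (h : m ≠ m') : biF k m m' m = 1 := by
  unfold biF
  rw [Finsupp.sub_apply, Finsupp.single_eq_same, Finsupp.single_eq_of_ne h, sub_zero]

lemma biF_right {m m' : J → ℤ} (h : m ≠ m') : biF k m m' m' = -1 := by
  unfold biF
  rw [Finsupp.sub_apply, Finsupp.single_eq_same, Finsupp.single_eq_of_ne h.symm, zero_sub]

open Classical in
lemma biF_face {m m' : J → ℤ} (h : m ≠ m') (l : J → ℤ) :
    face (biF k m m') l = ({m, m'} : Finset (J → ℤ)).filter fun a =>
      ∑ j, l j * a j ≤ ∑ j, l j * m j ∧ ∑ j, l j * a j ≤ ∑ j, l j * m' j := by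
  unfold face
  rw [biF_support h]
  apply Finset.filter_congr
  intro a _
  simp only [Finset.mem_insert, Finset.mem_singleton, forall_eq_or_imp, forall_eq]

lemma biF_zero {m m' : J → ℤ} (h : m ≠ m') (l : J → ℤ) (z : J → κ) (hz : ∀ j, z j ≠ 0)
    (hv : vl (biF k m m') l z = 0) : ∑ j, l j * m j = ∑ j, l j * m' j ∧
      ∏ j, z j ^ m j = ∏ j, z j ^ m' j := by
  classical
  have hz1 : ∀ m : J → ℤ, ∏ j, z j ^ m j ≠ 0 := fun m =>
    Finset.prod_ne_zero_iff.2 fun j _ => zpow_ne_zero _ (hz j)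
  unfold vl at hv
  rw [biF_face h, Finset.sum_filter, Finset.sum_pair h, biF_left h, biF_right h] at hv
  have h1 : ∑ j, l j * m j = ∑ j, l j * m' j := by
    by_contra hne
    rcases lt_or_gt_of_ne hne with hlt | hlt
    · rw [if_pos ⟨le_refl _, hlt.le⟩, if_neg (fun h => absurd h.1 (not_le.2 hlt)), map_one,
        one_mul, add_zero] at hv
      exact hz1 _ hv
    · rw [if_neg (fun h => absurd h.2 (not_le.2 hlt)), if_pos ⟨hlt.le, le_refl _⟩, map_neg,
        map_one, zero_add, neg_mul, one_mul, neg_eq_zero] at hv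
      exact hz1 _ hv
  refine ⟨h1, ?_⟩
  rw [if_pos ⟨le_refl _, h1.le⟩, if_pos ⟨h1.ge, le_refl _⟩, map_one, map_neg, map_one, one_mul,
    neg_mul, one_mul, add_neg_eq_zero] at hv
  exact hv

lemma biF_der {m m' : J → ℤ} (h : m ≠ m') (l : J → ℤ) (z : J → κ) (hz : ∀ j, z j ≠ 0)
    (hv : vl (biF k m m') l z = 0) (a : J → κ) (ha : der (biF k m m') l z a = 0) :
    ∑ j, (m j : κ) * a j = ∑ j, (m' j : κ) * a j := by
  classical
  have hz1 : ∀ m : J → ℤ, ∏ j, z j ^ m j ≠ 0 := fun m =>
    Finset.prod_ne_zero_iff.2 fun j _ => zpow_ne_zero _ (hz j)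
  obtain ⟨h1, h2⟩ := biF_zero h l z hz hv
  unfold der at ha
  rw [biF_face h, Finset.sum_filter, Finset.sum_pair h, biF_left h, biF_right h,
    if_pos ⟨le_refl _, h1.le⟩, if_pos ⟨h1.ge, le_refl _⟩, map_one, map_neg, map_one, one_mul,
    neg_mul, one_mul, h2] at ha
  have h3 : (∑ j, (m j : κ) * a j - ∑ j, (m' j : κ) * a j) * ∏ j, z j ^ m' j = 0 := by
    linear_combination ha
  rcases mul_eq_zero.1 h3 with h4 | h4
  · exact sub_eq_zero.1 h4
  · exact absurd h4 (hz1 _)

lemma biF_lv {K : Type u} [Field K] [Algebra k K] {m m' : J → ℤ} (h : m ≠ m') (y : J → K)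
    (hy : ∏ j, y j ^ m j = ∏ j, y j ^ m' j) : lv (biF k m m') y = 0 := by
  classical
  unfold lv
  rw [biF_support h, Finset.sum_pair h, biF_left h, biF_right h, hy]
  simp

end binomial

section subst

variable {k κ : Type u} [Field k] [Field κ] [Algebra k κ] {J0 J : Type} [Fintype J0] [Fintype J]

/-- The monomial substitution given by an integer matrix. -/
def subE (R : J0 → J → ℤ) (m : J0 → ℤ) (j : J) : ℤ := ∑ i, m i * R i j

/-- Weights. -/
def subL (R : J0 → J → ℤ) (l : J → ℤ) (i : J0) : ℤ := ∑ j, l j * R i j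

/-- Points. -/
noncomputable def subZ (R : J0 → J → ℤ) (z : J → κ) (i : J0) : κ := ∏ j, z j ^ R i j

/-- Directions. -/
def subA (R : J0 → J → ℤ) (a : J → κ) (i : J0) : κ := ∑ j, (R i j : κ) * a j

lemma subE_wt (R : J0 → J → ℤ) (m : J0 → ℤ) (l : J → ℤ) :
    ∑ j, l j * subE R m j = ∑ i, subL R l i * m i := by
  unfold subE subL
  simp only [Finset.mul_sum, Finset.sum_mul]
  rw [Finset.sum_comm]
  exact Finset.sum_congr rfl fun i _ => Finset.sum_congr rfl fun j _ => by ring

lemma subE_prod (R : J0 → J → ℤ) (m : J0 → ℤ) (z : J → κ) (hz : ∀ j, z j ≠ 0) :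
    ∏ j, z j ^ subE R m j = ∏ i, subZ R z i ^ m i := by
  unfold subE subZ
  have h1 : ∀ j, z j ^ (∑ i, m i * R i j) = ∏ i, z j ^ (m i * R i j) := by
    intro j
    classical
    induction (Finset.univ : Finset J0) using Finset.induction_on with
    | empty => simp
    | insert a s ha ih =>
      rw [Finset.sum_insert ha, Finset.prod_insert ha, zpow_add₀ (hz j), ih]
  rw [Finset.prod_congr rfl fun j _ => h1 j, Finset.prod_comm]
  refine Finset.prod_congr rfl fun i _ => ?_
  rw [← Finset.prod_zpow]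
  refine Finset.prod_congr rfl fun j _ => ?_
  rw [mul_comm, zpow_mul]

lemma subE_sum (R : J0 → J → ℤ) (m : J0 → ℤ) (a : J → κ) :
    ∑ j, (subE R m j : κ) * a j = ∑ i, (m i : κ) * subA R a i := by
  unfold subE subA
  simp only [Finset.mul_sum, Finset.sum_mul, Int.cast_sum, Int.cast_mul]
  rw [Finset.sum_comm]
  exact Finset.sum_congr rfl fun i _ => Finset.sum_congr rfl fun j _ => by ring

variable {R : J0 → J → ℤ} (hR : Function.Injective (subE R))

/-- The substitution. -/
noncomputable def subF (F : (J0 → ℤ) →₀ k) : (J → ℤ) →₀ k := F.embDomain ⟨subE R, hR⟩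

lemma subF_support (F : (J0 → ℤ) →₀ k) :
    (subF hR F).support = F.support.map ⟨subE R, hR⟩ := Finsupp.support_embDomain _ _

lemma subF_apply (F : (J0 → ℤ) →₀ k) (m : J0 → ℤ) : subF hR F (subE R m) = F m :=
  Finsupp.embDomain_apply_self ⟨subE R, hR⟩ F m

lemma subF_lv {K : Type u} [Field K] [Algebra k K] (F : (J0 → ℤ) →₀ k) (z : J → K)
    (hz : ∀ j, z j ≠ 0) : lv (subF hR F) z = lv F (subZ R z) := by
  unfold lv
  rw [subF_support, Finset.sum_map]
  refine Finset.sum_congr rfl fun m _ => ?_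
  simp only [Function.Embedding.coeFn_mk]
  rw [subF_apply, subE_prod R m z hz]

lemma subF_face (F : (J0 → ℤ) →₀ k) (l : J → ℤ) :
    face (subF hR F) l = (face F (subL R l)).map ⟨subE R, hR⟩ := by
  ext m
  unfold face
  simp only [subF_support, Finset.mem_filter, Finset.mem_map, Function.Embedding.coeFn_mk]
  constructor
  · rintro ⟨⟨m0, hm0, rfl⟩, h⟩
    refine ⟨m0, ⟨hm0, fun m' hm' => ?_⟩, rfl⟩
    have h1 := h (subE R m') ⟨m', hm', rfl⟩
    rwa [subE_wt, subE_wt] at h1
  · rintro ⟨m0, ⟨hm0, h⟩, rfl⟩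
    refine ⟨⟨m0, hm0, rfl⟩, ?_⟩
    rintro _ ⟨m', hm', rfl⟩
    rw [subE_wt, subE_wt]
    exact h m' hm'

lemma subF_vl (F : (J0 → ℤ) →₀ k) (l : J → ℤ) (z : J → κ) (hz : ∀ j, z j ≠ 0) :
    vl (subF hR F) l z = vl F (subL R l) (subZ R z) := by
  unfold vl
  rw [subF_face, Finset.sum_map]
  refine Finset.sum_congr rfl fun m _ => ?_
  simp only [Function.Embedding.coeFn_mk]
  rw [subF_apply, subE_prod R m z hz]

lemma subF_der (F : (J0 → ℤ) →₀ k) (l : J → ℤ) (z a : J → κ) (hz : ∀ j, z j ≠ 0) :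
    der (subF hR F) l z a = der F (subL R l) (subZ R z) (subA R a) := by
  unfold der
  rw [subF_face, Finset.sum_map]
  refine Finset.sum_congr rfl fun m _ => ?_
  simp only [Function.Embedding.coeFn_mk]
  rw [subF_apply, subE_prod R m z hz, subE_sum]

lemma subF_wt (F : (J0 → ℤ) →₀ k) (l : J → ℤ) (q : ℤ → Prop) :
    (∃ m ∈ (subF hR F).support, q (∑ j, l j * m j)) ↔
      ∃ m ∈ F.support, q (∑ i, subL R l i * m i) := by
  constructor
  · rintro ⟨m, hm, h⟩
    rw [subF_support, Finset.mem_map] at hm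
    obtain ⟨m0, hm0, rfl⟩ := hm
    simp only [Function.Embedding.coeFn_mk] at h
    rw [subE_wt] at h
    exact ⟨m0, hm0, h⟩
  · rintro ⟨m, hm, h⟩
    refine ⟨subE R m, ?_, ?_⟩
    · rw [subF_support]
      exact Finset.mem_map_of_mem _ hm
    · rw [subE_wt]
      exact h

/-- Gradients. -/
lemma subF_gv {Jv0 Jv : Type} [Fintype Jv0] [Fintype Jv] (e0 : Jv0 ↪ J0) (e : Jv ↪ J)
    (ψ : Jv0 → Jv) (hψ : ∀ m b, subE R m (e (ψ b)) = m (e0 b)) (F : (J0 → ℤ) →₀ k) (l : J → ℤ)
    (z : J → κ) (hz : ∀ j, z j ≠ 0) (b : Jv0) :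
    gv (subF hR F) e l z (ψ b) = gv F e0 (subL R l) (subZ R z) b := by
  unfold gv
  rw [subF_face, Finset.sum_map]
  refine Finset.sum_congr rfl fun m _ => ?_
  simp only [Function.Embedding.coeFn_mk]
  rw [subF_apply, subE_prod R m z hz, hψ]

end subst

section rank

/-- Rank and annihilator. -/
lemma rank_ann {κ σ J : Type*} [Field κ] [Finite σ] [Fintype J] (r : σ → J → κ)
    (A : Submodule κ (J → κ)) (hA : ∀ a, a ∈ A ↔ ∀ s, ∑ j, r s j * a j = 0) :
    Module.finrank κ (Submodule.span κ (Set.range r)) + Module.finrank κ A = Fintype.card J := by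
  classical
  cases nonempty_fintype σ
  let M : Matrix σ J κ := Matrix.of r
  have h1 : A = LinearMap.ker M.mulVecLin := by
    ext a
    rw [hA, LinearMap.mem_ker]
    constructor
    · intro h
      funext s
      exact h s
    · intro h s
      exact congrFun h s
  have h2 : Module.finrank κ (Submodule.span κ (Set.range r)) = M.rank := by
    rw [Matrix.rank_eq_finrank_span_row]
    rfl
  rw [h1, h2, Matrix.rank, LinearMap.finrank_range_add_finrank_ker,
    Module.finrank_fintype_fun_eq_card]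

end rank

end Pool.Agent.Helper50.Add
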