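import Pool.Agent.Helper50.Add.Poly
import Pool.Graph.R_seed8.W418.Z.Reg

/-!
# Models of covers of arrangements of p-polynomials over composita of function fields of surfaces
-/

set_option autoImplicit false
set_option linter.unusedVariables false
set_option linter.unusedSectionVars false

universe u

open Finsupp Pool.Agent.TH214 Pool.Agent.TH214.V Pool.Agent.W558 Pool.Agent.TH214.SD
  Pool.Agent.TH188.WP Pool.Agent.TH188.WQ Pool.Agent.TH188.VT Pool.Agent.TH188.VQ
  Pool.Agent.W558.WT AlgebraicGeometry CategoryTheory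

namespace Pool.Agent.Helper50.Add

section main

variable {p : ℕ} [Fact p.Prime] {k K : Type u} [Field k] [PerfectField k] [CharP k p] [Field K]
  [Algebra k K] {m n h c d l q s r o : ℕ} {E : Fin m → IntermediateField k K} {x : Fin l → K}
  {u : Fin h → K} {y : Fin n → K} {G : Fin q → (Fin h ⊕ Fin n → ℤ) →₀ k} {ρ : Fin d → Fin n}

instance kN_charP (N : ℕ) : CharP (kN p k N) p :=
  (kN p k N).subtype.charP (kN p k N).subtype.injective p

/-- The finite system containing given data. -/
theorem base_data [CharP K p] (hB : IsPolynomialBase E p x c u y G ρ) (S : Type) [Finite S]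
    (v : S → K) (hv : ∀ b, IsProductOver E p x y (v b)) :
    ∃ (N D r : ℕ) (_ : Finite (kN p k N)) (g : Fin r → K) (uu : Fin h → ∀ i, E i) (y' : Fin h → K)
      (M : Fin h → Fin r → ℤ) (s : S → ∀ i, E i) (ms : S → Fin r → ℤ) (ex : S → Fin n → ℤ),
      (∀ b i, s b i ≠ 0) ∧
      (∀ b, v b = (∏ i, (s b i : K)) * (∏ i, g i ^ ms b i) * ∏ j, y j ^ ex b j) ∧
      BaseData p E (Vm p x k N D) g x u y G ρ c {a | IsPolynomialProduct p k x (u a)} uu y' M := by
  classical
  choose s bS ex hs hbS hvb using hv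
  choose hu0 uu0 bU hbU huU using hB.products
  let bT : Fin h ⊕ S → K := Sum.elim
    (fun a => if IsPolynomialProduct p k x (u a) then u a else bU a) bS
  have hbT : ∀ i, IsPolynomialProduct p k x (bT i) := by
    rintro (a | b)
    · change IsPolynomialProduct p k x (if IsPolynomialProduct p k x (u a) then u a else bU a)
      split_ifs with h1
      · exact h1
      · exact hbU a
    · exact hbS b
  obtain ⟨N, D, hN, hcl⟩ := exists_system p x bT hbT
  have hfin : Finite (kN p k N) := kN_finite p k hN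
  have hfd := Vm_fd (k := k) p x N D
  have hVf : Finite (Vm p x k N D) := Module.finite_of_finite (kN p k N)
  have hVf' : Finite {v : Vm p x k N D // v ≠ 0} := Subtype.finite
  obtain ⟨r, ⟨ε⟩⟩ := Finite.exists_equiv_fin {v : Vm p x k N D // v ≠ 0}
  let g : Fin r → K := fun i => ((ε.symm i).1 : K)
  have hg0 : ∀ i, g i ≠ 0 := fun i h0 => (ε.symm i).2 (Subtype.ext h0)
  have hgV : ∀ i, g i ∈ Vm p x k N D := fun i => (ε.symm i).1.2
  have hgs : ∀ v ∈ Vm p x k N D, v ≠ 0 → ∃ i, g i = v := by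
    intro v hv hv0
    refine ⟨ε ⟨⟨v, hv⟩, fun h0 => hv0 (congrArg Subtype.val h0)⟩, ?_⟩
    change ((ε.symm (ε _)).1 : K) = v
    rw [Equiv.symm_apply_apply]
  choose eT heT using fun i => closure_exp (V := (Vm p x k N D : Set K)) hg0 hgs (hcl i)
  refine ⟨N, D, r, hfin, g,
    fun a i => if IsPolynomialProduct p k x (u a) then 1 else uu0 a i,
    fun a => bT (Sum.inl a), fun a => eT (Sum.inl a), s, fun b => eT (Sum.inr b), ex, hs, ?_, ?_⟩
  · intro b
    rw [← heT (Sum.inr b)]
    exact hvb b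
  · refine ⟨hB.surfaces, hgV, hgs, hg0, hfd, Vm_rank p x hN D, Vm_x p x N D, ?_, ?_, ?_, ?_,
      hB.ne_zero, hB.equations, hB.schon, hB.codimension, hB.independent⟩
    · intro a i
      split_ifs with h1
      · exact one_ne_zero
      · intro h0
        apply hu0 a
        rw [huU a, Finset.prod_eq_zero (Finset.mem_univ i) (by rw [h0]; rfl), zero_mul]
    · intro a ha i
      exact if_pos ha
    · intro a
      exact heT (Sum.inl a)
    · intro a
      by_cases h1 : IsPolynomialProduct p k x (u a)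
      · simp only [if_pos h1]
        change u a = _ * (if IsPolynomialProduct p k x (u a) then u a else bU a)
        rw [if_pos h1]
        have h2 : ∏ i, (((1 : E i) : E i) : K) = 1 := Finset.prod_eq_one fun i _ => rfl
        rw [h2, one_mul]
      · simp only [if_neg h1]
        change u a = _ * (if IsPolynomialProduct p k x (u a) then u a else bU a)
        rw [if_neg h1]
        exact huU a

lemma gen_Y {r' : ℕ} {g : Fin r' → K} {y' : Fin h → K} {w : Fin r → K}
    (hx : ∀ i, ∃ j, g j = x i)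
    (hgen : IntermediateField.adjoin k
      (Set.range w ∪ (Set.range x ∪ (Set.range y ∪ ⋃ i, (E i : Set K)))) = ⊤) :
    IntermediateField.adjoin k (Set.range w ∪
      (Set.range (Sum.elim g (Sum.elim y' y) ∘ (eY h r' n).symm) ∪ ⋃ i, (E i : Set K))) = ⊤ := by
  rw [eq_top_iff, ← hgen]
  refine IntermediateField.adjoin.mono k _ _ ?_
  rintro z (hz | ⟨i, rfl⟩ | ⟨j, rfl⟩ | hz)
  · exact Or.inl hz
  · obtain ⟨j, hj⟩ := hx i
    refine Or.inr (Or.inl ⟨eY h r' n (Sum.inl j), ?_⟩)
    rw [Function.comp_apply, Equiv.symm_apply_apply]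
    exact hj
  · refine Or.inr (Or.inl ⟨eY h r' n (Sum.inr (Sum.inr j)), ?_⟩)
    rw [Function.comp_apply, Equiv.symm_apply_apply]
    rfl
  · exact Or.inr (Or.inr hz)

lemma prod_Y {r' : ℕ} {g : Fin r' → K} {y' : Fin h → K} (a : Fin r' → ℤ) (b : Fin n → ℤ) :
    ∏ j, (Sum.elim g (Sum.elim y' y) ∘ (eY h r' n).symm) j ^
      (Sum.elim a (Sum.elim (0 : Fin h → ℤ) b) ∘ (eY h r' n).symm) j =
      (∏ i, g i ^ a i) * ∏ j, y j ^ b j := by
  rw [← Equiv.prod_comp (eY h r' n)]
  simp only [Function.comp_apply, Equiv.symm_apply_apply]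
  rw [Fintype.prod_sum_type, Fintype.prod_sum_type]
  simp

/-- Models of the Artin-Schreier covers. -/
theorem wild_models {f : ∀ i, E i} {F : Fin s → (Fin h ⊕ Fin n → ℤ) →₀ k} {T : Set (Fin s)}
    {w : Fin r → K} (hK : IsWildPolynomialCover E p x c u y G ρ f F T w) (S : Type) [Finite S]
    (v : S → K) (hv : ∀ b, IsProductOver E p x y (v b)) :
    ∃ (T I : Type) (_ : Finite T) (_ : Fintype I) (M : LM (⊥ : Subalgebra k K) ⊤ T I)
      (Γ : S → I → ℤ), Fn M v Γ ∧ Frc M := by
  classical
  have hcK : CharP K p := charP_of_injective_algebraMap (algebraMap k K).injective p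
  have htr : Algebra.trdeg k K < Cardinal.aleph0 :=
    trdeg_fin hK.base.surfaces (X := Set.range w ∪ (Set.range x ∪ Set.range y))
      ((Set.finite_range w).union ((Set.finite_range x).union (Set.finite_range y))) (by
        rw [Set.union_assoc, Set.union_assoc]
        exact hK.generate)
  obtain ⟨N, D, r', hfin, g, uu, y', M, s', ms, ex, hs0, hvb, hB⟩ :=
    base_data (p := p) hK.base S v hv
  obtain ⟨C, N', Y, ρ', G', F', hY, hY0, hC, hind, hG', hF', hND, hun⟩ :=
    setup (k₀ := kN p k N) hB F (fun t => t ∈ T) (fun w z hz hv t ht =>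
      hK.nondegenerate w z hz hv t ht)
  have hun' := hun (fun t ht => hK.untwisted t ht)
  have hxg : ∀ i, ∃ j, g j = x i := fun i => hB.surj _ (hB.memx i) (hB.indep.ne_zero (Sum.inl i))
  refine Pool.Agent.TH214.U.sch_modelE (p := p) hK.base.surfaces htr f uu hB.uu_ne
    (fun a => ∏ i, (uu a i : K)) (fun _ => rfl) Y hY0 ρ' hC hind (Fin N') (Fin s) G' F'
    (fun t => t ∈ T) hG' hND hun' w ?_ ?_ S v ?_
  · intro j
    have h1 : (Set.range fun t => lv (F' t) (Sum.elim (fun a => ∏ i, (uu a i : K)) Y)) =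
        Set.range fun t => value (F t) u y := by
      congr 1
      funext t
      exact hF' t
    rw [h1]
    exact hK.roots j
  · rw [hY]
    exact gen_Y hxg hK.generate
  · intro b
    refine ⟨s' b, Sum.elim (ms b) (Sum.elim (0 : Fin h → ℤ) (ex b)) ∘ (eY h r' n).symm, hs0 b, ?_⟩
    rw [hY, prod_Y, hvb b, mul_assoc]

/-- Models of the purely inseparable covers. -/
theorem insep_models {g₀ : Fin o → ∀ i, E i} {F : Fin s → (Fin h ⊕ Fin n → ℤ) →₀ k}
    {w : Fin r → K} (hK : IsInseparablePolynomialCover E p x c u y G ρ g₀ F w) (S : Type)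
    [Finite S] (v : S → K) (hv : ∀ b, IsProductOver E p x y (v b)) :
    ∃ (T I : Type) (_ : Finite T) (_ : Fintype I) (M : LM (⊥ : Subalgebra k K) ⊤ T I)
      (Γ : S → I → ℤ), Fn M v Γ ∧ Frc M := by
  classical
  have hcK : CharP K p := charP_of_injective_algebraMap (algebraMap k K).injective p
  have htr : Algebra.trdeg k K < Cardinal.aleph0 :=
    trdeg_fin hK.base.surfaces (X := Set.range w ∪ (Set.range x ∪ Set.range y))
      ((Set.finite_range w).union ((Set.finite_range x).union (Set.finite_range y))) (by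
        rw [Set.union_assoc, Set.union_assoc]
        exact hK.generate)
  obtain ⟨N, D, r', hfin, g, uu, y', M, s', ms, ex, hs0, hvb, hB⟩ :=
    base_data (p := p) hK.base S v hv
  obtain ⟨C, N', Y, ρ', G', F', hY, hY0, hC, hind, hG', hF', hND, hun⟩ :=
    setup (k₀ := kN p k N) hB F (fun _ => True) (by
      intro w z hz hv t _
      have h1 := hK.nondegenerate w z hz hv t
      have h2 : {v | ∃ t', t' ≠ t ∧ (True ∨ ∃ e ∈ (F t').support, ∑ j, w j * e j ≤ 0) ∧
          v = gv (F t') (Function.Embedding.inr : Fin n ↪ Fin h ⊕ Fin n) w z} =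
          {v | ∃ t', t' ≠ t ∧ v = initialGradient (F t') w z} := by
        ext v
        constructor
        · rintro ⟨t', h3, h4, h5⟩
          exact ⟨t', h3, h5⟩
        · rintro ⟨t', h3, h5⟩
          exact ⟨t', h3, Or.inl trivial, h5⟩
      rw [h2]
      exact h1)
  have hxg : ∀ i, ∃ j, g j = x i := fun i => hB.surj _ (hB.memx i) (hB.indep.ne_zero (Sum.inl i))
  obtain ⟨lam, mu, hlm⟩ := exists_coeffP _ _ hK.roots
  let J' := {t : Fin o // ∀ i, g₀ t i ≠ 0}
  have hlm' : ∀ j, w j ^ p = ∑ t : J', lam j t.1 • ∏ i, (g₀ t.1 i : K) +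
      ∑ t, mu j t • lv (F' t) (Sum.elim (fun a => ∏ i, (uu a i : K)) Y) := by
    intro j
    rw [hlm j]
    have h1 : ∑ t, lam j t • ∏ i, (g₀ t i : K) =
        ∑ t ∈ Finset.univ.filter (fun t => ∀ i, g₀ t i ≠ 0), lam j t • ∏ i, (g₀ t i : K) := by
      refine (Finset.sum_filter_of_ne fun t _ ht i hi => ht ?_).symm
      rw [Finset.prod_eq_zero (Finset.mem_univ i) (by rw [hi]; rfl), smul_zero]
    rw [h1]
    congr 1
    · exact Finset.sum_subtype (Finset.univ.filter fun t => ∀ i, g₀ t i ≠ 0)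
        (p := fun t => ∀ i, g₀ t i ≠ 0) (F := inferInstance) (by simp) _
    · exact Finset.sum_congr rfl fun t _ => by rw [hF' t]
  refine Pool.Agent.TH214.U.sch_modelP (p := p) hK.base.surfaces htr J' (fun t => g₀ t.1)
    (fun i t t' hne => hK.powers i t.1 t'.1 fun h => hne (Subtype.ext h)) (fun t => t.2)
    uu hB.uu_ne (fun a => ∏ i, (uu a i : K)) (fun _ => rfl) Y hY0 ρ' hC hind (Fin N') (Fin s) G' F'
    hG' hND w (fun j t => lam j t.1) mu hlm' ?_ S v ?_
  · rw [hY]
    exact gen_Y hxg hK.generate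
  · intro b
    refine ⟨s' b, Sum.elim (ms b) (Sum.elim (0 : Fin h → ℤ) (ex b)) ∘ (eY h r' n).symm, hs0 b, ?_⟩
    rw [hY, prod_Y, hvb b, mul_assoc]

/-- Resolution. -/
theorem resolvable
    (hm : ∀ (S : Type) [Finite S] (v : S → K), (∀ b, IsProductOver E p x y (v b)) →
      ∃ (T I : Type) (_ : Finite T) (_ : Fintype I) (M : LM (⊥ : Subalgebra k K) ⊤ T I)
      (Γ : S → I → ℤ), Fn M v Γ ∧ Frc M)
    (A : Type u) [CommRing A] [IsDomain A] [Algebra k A] [Algebra.FiniteType k A] [Algebra A K]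
    [IsScalarTower k A K] [IsFractionRing A K] (S : Finset A)
    (hS : ∀ a ∈ S, IsProductOver E p x y (algebraMap A K a))
    (hA : ∀ a : A, IsIntegral (Algebra.adjoin k (S : Set A)) a) :
    IsResolvableVariety (X := Spec (CommRingCat.of A))
      (Spec.map (CommRingCat.ofHom (algebraMap k A))) := by
  classical
  obtain ⟨ε⟩ : Nonempty ({a // a ∈ S} ≃ Fin S.card) := ⟨S.equivFin⟩
  obtain ⟨T, I, hT, hI, M, Γ, hF, hR⟩ := hm (Fin S.card)
    (fun b => algebraMap A K (ε.symm b).1) (fun b => hS _ (ε.symm b).2)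
  obtain ⟨T', I', hT', hI', ⟨M'⟩⟩ := LM_of_fn' M _ Γ hF hR A
    (fun b => (ε.symm b).1) (fun b => rfl) (by
      have h1 : Set.range (fun b => (ε.symm b).1) = (S : Set A) := by
        ext a
        constructor
        · rintro ⟨b, rfl⟩
          exact (ε.symm b).2
        · intro ha
          exact ⟨ε ⟨a, ha⟩, by simp⟩
      rw [h1]
      exact hA)
  apply isResolvableVariety_spec
  exact hasResolution_of_LM _ (IsFractionRing.injective A K) M'

end main

end Pool.Agent.Helper50.Add
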