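import Pool.Agent.Helper50.Add.System

/-!
# Nondegeneracy of the system of an additive arrangement, and models
-/

set_option autoImplicit false
set_option linter.unusedVariables false
set_option linter.unusedSectionVars false

universe u

open Finsupp Pool.Agent.TH214 Pool.Agent.TH214.V Pool.Agent.W558 Pool.Agent.TH214.SD
  Pool.Agent.TH188.WP Pool.Agent.TH188.WQ Pool.Agent.TH188.VT Pool.Agent.TH188.VQ

namespace Pool.Agent.Helper50.Add

section gvzero

variable {k κ : Type u} [Field k] [Field κ] [Algebra k κ] {J Jv : Type} [Fintype J] [Fintype Jv]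

lemma gv_zero (G : (J → ℤ) →₀ k) (e : Jv ↪ J) (l : J → ℤ) (z : J → κ) (b : Jv)
    (h : ∀ m ∈ G.support, m (e b) = 0) : gv G e l z b = 0 := by
  unfold gv
  refine Finset.sum_eq_zero fun m hm => ?_
  rw [h m (Finset.mem_filter.1 hm).1, Int.cast_zero, mul_zero, zero_mul]

lemma unitE_of_ne {I : Type} [DecidableEq J] (ι : I ↪ J) (i : I) (j : J) (hj : j ≠ ι i) :
    unitE ι i j = 0 := Pi.single_eq_of_ne hj _

end gvzero

section system

variable {h r n q s : ℕ} {P : Set (Fin h)}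
  {k₀ : Type*} {k K : Type u} [Field k₀] [Finite k₀] [Field k] [Field K] [Algebra k₀ k]
  [Algebra k K] [Algebra k₀ K] [IsScalarTower k₀ k K] {p : ℕ} [Fact p.Prime] [CharP k p]

lemma Gt_support_t (g : Fin r → K) (M : Fin h → Fin r → ℤ)
    (G : Fin q → (Fin h ⊕ Fin n → ℤ) →₀ k)
    (e : {c : Fin r →₀ k₀ // linearCombination k₀ g c = 0} ⊕
      ({ij : Fin r × Fin r // g ij.2 = g ij.1 ^ p} ⊕ Fin h)) (m : Jt h r n → ℤ)
    (hm : m ∈ (Gt (k₀ := k₀) p g M P G
      (Sum.map id (Sum.map id Sum.inl) e)).support) (j : Fin n) :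
    m (Sum.inr (Sum.inr (Sum.inr j))) = 0 := by
  classical
  have hp : p.Prime := Fact.out
  rcases e with c | ij | a
  · change m ∈ (linF k (iV h r n) c.1).support at hm
    rw [linF_support, Finset.mem_map] at hm
    obtain ⟨i, hi, rfl⟩ := hm
    exact unitE_of_ne _ _ _ (by simp [iV])
  · change m ∈ (biF k (Pi.single (iV h r n ij.1.2) 1) (Pi.single (iV h r n ij.1.1) (p : ℤ))).support
      at hm
    rw [biF_support (ne_bi hp _ _)] at hm
    rcases Finset.mem_insert.1 hm with rfl | hm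
    · exact Pi.single_eq_of_ne (by simp [iV]) _
    · rw [Finset.mem_singleton.1 hm]
      exact Pi.single_eq_of_ne (by simp [iV]) _
  · change m ∈ (biF k (Pi.single (Sum.inr (Sum.inr (Sum.inl a))) 1) (Mx M n a)).support at hm
    rw [biF_support (ne_mo _ _)] at hm
    rcases Finset.mem_insert.1 hm with rfl | hm
    · exact Pi.single_eq_of_ne (by simp) _
    · rw [Finset.mem_singleton.1 hm]
      simp [Mx]

lemma Gt_support_u (g : Fin r → K) (M : Fin h → Fin r → ℤ)
    (G : Fin q → (Fin h ⊕ Fin n → ℤ) →₀ k)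
    (e : {c : Fin r →₀ k₀ // linearCombination k₀ g c = 0} ⊕
      ({ij : Fin r × Fin r // g ij.2 = g ij.1 ^ p} ⊕ Fin h)) (m : Jt h r n → ℤ)
    (hm : m ∈ (Gt (k₀ := k₀) p g M P G
      (Sum.map id (Sum.map id Sum.inl) e)).support) (j : Fin h) :
    m (Sum.inl j) = 0 := by
  classical
  have hp : p.Prime := Fact.out
  rcases e with c | ij | a
  · change m ∈ (linF k (iV h r n) c.1).support at hm
    rw [linF_support, Finset.mem_map] at hm
    obtain ⟨i, hi, rfl⟩ := hm
    exact unitE_of_ne _ _ _ (by simp [iV])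
  · change m ∈ (biF k (Pi.single (iV h r n ij.1.2) 1) (Pi.single (iV h r n ij.1.1) (p : ℤ))).support
      at hm
    rw [biF_support (ne_bi hp _ _)] at hm
    rcases Finset.mem_insert.1 hm with rfl | hm
    · exact Pi.single_eq_of_ne (by simp [iV]) _
    · rw [Finset.mem_singleton.1 hm]
      exact Pi.single_eq_of_ne (by simp [iV]) _
  · change m ∈ (biF k (Pi.single (Sum.inr (Sum.inr (Sum.inl a))) 1) (Mx M n a)).support at hm
    rw [biF_support (ne_mo _ _)] at hm
    rcases Finset.mem_insert.1 hm with rfl | hm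
    · exact Pi.single_eq_of_ne (by simp) _
    · rw [Finset.mem_singleton.1 hm]
      simp [Mx]

/-- Sorting of the equations. -/
lemma St_cases {g : Fin r → K} {Q : St p (k₀ := k₀) h q g → Prop}
    (h1 : ∀ e, Q (Sum.map id (Sum.map id Sum.inl) e)) (h2 : ∀ i, Q (Sum.inr (Sum.inr (Sum.inr i))))
    (e : St p (k₀ := k₀) h q g) : Q e := by
  rcases e with c | ij | a | i
  · exact h1 (Sum.inl c)
  · exact h1 (Sum.inr (Sum.inl ij))
  · exact h1 (Sum.inr (Sum.inr a))
  · exact h2 i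

lemma subF_gv_t (F : (Fin h ⊕ Fin n → ℤ) →₀ k) {κ : Type u} [Field κ] [Algebra k κ]
    (w : Jt h r n → ℤ) (z : Jt h r n → κ) (hz : ∀ j, z j ≠ 0) (j : Fin n) :
    gv (subF (Rm_inj (r := r) (P := P)) F)
      (Function.Embedding.inr : (Fin r ⊕ (Fin h ⊕ Fin n)) ↪ Jt h r n) w z
        (Sum.inr (Sum.inr j)) =
      gv F (Function.Embedding.inr : Fin n ↪ Fin h ⊕ Fin n) (subL (Rm r n P) w)
        (subZ (Rm r n P) z) j :=
  subF_gv (Rm_inj (r := r) (P := P)) (Function.Embedding.inr : Fin n ↪ Fin h ⊕ Fin n)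
    (Function.Embedding.inr : (Fin r ⊕ (Fin h ⊕ Fin n)) ↪ Jt h r n)
    (fun j => Sum.inr (Sum.inr j)) (fun m b => Rm_t m b) F w z hz j

variable (V : Submodule k₀ K) {g : Fin r → K}
  (M : Fin h → Fin r → ℤ) (G : Fin q → (Fin h ⊕ Fin n → ℤ) →₀ k)
  (F : Fin s → (Fin h ⊕ Fin n → ℤ) →₀ k) {c l d : ℕ}

/-- Nondegeneracy of the total system. -/
theorem ndvc_add [CharP k₀ p] [CharP K p] (hgV : ∀ i, g i ∈ V)
    (hgs : ∀ v ∈ V, v ≠ 0 → ∃ i, g i = v) [FiniteDimensional k₀ V]
    (hrk : Module.finrank k₀ V ≤ Module.finrank k₀ (powersIn p V) + l)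
    (hS : SchonEquations G c) (hcd : c + d = n) (tw : Fin s → Prop)
    (hND : ∀ (w : Fin h ⊕ Fin n → ℤ) (z : Fin h ⊕ Fin n → AlgebraicClosure k), (∀ j, z j ≠ 0) →
      (∀ i, vl (G i) w z = 0) → ∀ t, (tw t ∨ ∃ e ∈ (F t).support, ∑ j, w j * e j < 0) →
      gv (F t) (Function.Embedding.inr : Fin n ↪ Fin h ⊕ Fin n) w z ∉
        Submodule.span (AlgebraicClosure k)
          ((Set.range fun i => gv (G i) (Function.Embedding.inr : Fin n ↪ Fin h ⊕ Fin n) w z) ∪
            {v | ∃ t', t' ≠ t ∧ (tw t' ∨ ∃ e ∈ (F t').support, ∑ j, w j * e j ≤ 0) ∧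
              v = gv (F t') (Function.Embedding.inr : Fin n ↪ Fin h ⊕ Fin n) w z}))
    {C : ℕ} (hC : C + (l + d) = r + (h + n)) {σ : Type} [Finite σ]
    (ε : σ ≃ St p (k₀ := k₀) h q g) :
    NDVc (fun e => Gt (k₀ := k₀) p g M P G (ε e))
      (fun t => subF (Rm_inj (r := r) (P := P)) (F t))
      (Function.Embedding.inr : (Fin r ⊕ (Fin h ⊕ Fin n)) ↪ Jt h r n) tw C := by
  classical
  intro w z hz hv
  have hv' : ∀ e, vl (Gt (k₀ := k₀) p g M P G e) w z = 0 := by
    intro e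
    have h1 := hv (ε.symm e)
    simp only [ε.apply_symm_apply] at h1
    exact h1
  have hvG : ∀ i, vl (G i) (subL (Rm r n P) w) (subZ (Rm r n P) z) = 0 := by
    intro i
    have h1 := hv' (Sum.inr (Sum.inr (Sum.inr i)))
    have h2 := subF_vl (Rm_inj (r := r) (P := P)) (G i) w z hz
    exact h2.symm.trans h1
  have hz0 : ∀ j, subZ (Rm r n P) z j ≠ 0 :=
    fun j => Finset.prod_ne_zero_iff.2 fun i _ => zpow_ne_zero _ (hz i)
  refine ⟨?_, ?_⟩
  · have h1 := ann_finrank (k₀ := k₀) (P := P) (l := l) V M G hgV hgs hrk hcd w z hz hv'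
      (fun h0 => hS _ _ hz0 h0)
    have h2 := rank_ann (κ := AlgebraicClosure k)
      (fun e => gv (Gt (k₀ := k₀) p g M P G (ε e))
        (Function.Embedding.inr : (Fin r ⊕ (Fin h ⊕ Fin n)) ↪ Jt h r n) w z)
      (ann fun e => gv (Gt (k₀ := k₀) p g M P G (ε e))
        (Function.Embedding.inr : (Fin r ⊕ (Fin h ⊕ Fin n)) ↪ Jt h r n) w z) (fun a => Iff.rfl)
    have h3 : (ann fun e => gv (Gt (k₀ := k₀) p g M P G (ε e))
        (Function.Embedding.inr : (Fin r ⊕ (Fin h ⊕ Fin n)) ↪ Jt h r n) w z) =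
        ann fun e => gv (Gt (k₀ := k₀) p g M P G e)
        (Function.Embedding.inr : (Fin r ⊕ (Fin h ⊕ Fin n)) ↪ Jt h r n) w z := by
      ext a
      constructor
      · intro h4 e
        have h5 := h4 (ε.symm e)
        simp only [ε.apply_symm_apply] at h5
        exact h5
      · intro h4 e
        exact h4 (ε e)
    rw [h3] at h2
    have h4 : Fintype.card (Fin r ⊕ (Fin h ⊕ Fin n)) = r + (h + n) := by simp
    rw [h4] at h2
    change C ≤ Module.finrank (AlgebraicClosure k) (Submodule.span (AlgebraicClosure k)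
      (Set.range fun e => gv (Gt (k₀ := k₀) p g M P G (ε e))
        (Function.Embedding.inr : (Fin r ⊕ (Fin h ⊕ Fin n)) ↪ Jt h r n) w z))
    omega
  · intro t0 ht0 hmem
    have hwt : ∀ t, (∃ m ∈ (subF (Rm_inj (r := r) (P := P)) (F t)).support, ∑ j, w j * m j < 0) ↔
        ∃ m ∈ (F t).support, ∑ i, subL (Rm r n P) w i * m i < 0 :=
      fun t => subF_wt _ (F t) w (· < 0)
    have hwt' : ∀ t, (∃ m ∈ (subF (Rm_inj (r := r) (P := P)) (F t)).support, ∑ j, w j * m j ≤ 0) ↔
        ∃ m ∈ (F t).support, ∑ i, subL (Rm r n P) w i * m i ≤ 0 :=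
      fun t => subF_wt _ (F t) w (· ≤ 0)
    refine hND _ _ hz0 hvG t0 (ht0.imp_right (hwt t0).1) ?_
    let π : (Fin r ⊕ (Fin h ⊕ Fin n) → AlgebraicClosure k) →ₗ[AlgebraicClosure k]
        (Fin n → AlgebraicClosure k) :=
      LinearMap.funLeft _ _ fun j => Sum.inr (Sum.inr j)
    have h1 := Submodule.mem_map_of_mem (f := π) hmem
    rw [Submodule.map_span] at h1
    have h2 : π (gv (subF (Rm_inj (r := r) (P := P)) (F t0))
        (Function.Embedding.inr : (Fin r ⊕ (Fin h ⊕ Fin n)) ↪ Jt h r n) w z) =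
        gv (F t0) (Function.Embedding.inr : Fin n ↪ Fin h ⊕ Fin n) (subL (Rm r n P) w)
        (subZ (Rm r n P) z) := funext fun j => subF_gv_t (F t0) w z hz j
    rw [h2] at h1
    refine Submodule.span_le.2 ?_ h1
    rintro _ ⟨v, hv0 | hv0, rfl⟩
    · obtain ⟨e, rfl⟩ := hv0
      change π (gv (Gt (k₀ := k₀) p g M P G (ε e))
        (Function.Embedding.inr : (Fin r ⊕ (Fin h ⊕ Fin n)) ↪ Jt h r n) w z) ∈ _
      generalize ε e = e'
      revert e'
      refine St_cases ?_ ?_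
      · intro e'
        have h3 : π (gv (Gt (k₀ := k₀) p g M P G (Sum.map id (Sum.map id Sum.inl) e'))
            (Function.Embedding.inr : (Fin r ⊕ (Fin h ⊕ Fin n)) ↪ Jt h r n) w z) = 0 := by
          funext j
          exact gv_zero _ _ _ _ _ fun m hm => Gt_support_t g M G e' m hm j
        rw [h3]
        exact Submodule.zero_mem _
      · intro i
        refine Submodule.subset_span (Or.inl ⟨i, ?_⟩)
        funext j
        exact (subF_gv_t (G i) w z hz j).symm
    · obtain ⟨t', ht', ht1, rfl⟩ := hv0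
      refine Submodule.subset_span (Or.inr ⟨t', ht', ht1.imp_right (hwt' t').1, ?_⟩)
      funext j
      exact subF_gv_t (F t') w z hz j

end system

end Pool.Agent.Helper50.Add
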