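import Pool.Agent.Helper50.Add.Model

/-!
# Models of covers of additive arrangements
-/

set_option autoImplicit false
set_option linter.unusedVariables false
set_option linter.unusedSectionVars false

universe u

open Finsupp Pool.Agent.TH214 Pool.Agent.TH214.V Pool.Agent.W558 Pool.Agent.TH214.SD
  Pool.Agent.TH188.WP Pool.Agent.TH188.WQ Pool.Agent.TH188.VT Pool.Agent.TH188.VQ

namespace Pool.Agent.Helper50.Add

section eqs

variable {h r n q s : ℕ} {P : Set (Fin h)}
  {k₀ : Type*} {k K : Type u} [Field k₀] [Finite k₀] [Field k] [Field K] [Algebra k₀ k]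
  [Algebra k K] [Algebra k₀ K] [IsScalarTower k₀ k K] {p : ℕ} [Fact p.Prime] [CharP k p]

lemma linF_lv {I J : Type} [Fintype J] [DecidableEq J] (ι : I ↪ J) (c : I →₀ k₀) (z : J → K) :
    lv (linF k ι c) z = linearCombination k₀ (fun i => z (ι i)) c := by
  unfold lv
  rw [linF_support, Finset.sum_map, linearCombination_apply, Finsupp.sum]
  refine Finset.sum_congr rfl fun i _ => ?_
  rw [linF_apply]
  have h1 : ∏ j, z j ^ unitE ι i j = z (ι i) := by
    change ∏ j, z j ^ (Pi.single (ι i) 1 : J → ℤ) j = _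
    rw [prod_single, zpow_one]
  rw [h1, algebraMap_smul]

/-- The values of all variables. -/
noncomputable def zt (u' : Fin h → K) (g : Fin r → K) (y' : Fin h → K) (t : Fin n → K) :
    Jt h r n → K := Sum.elim u' (Sum.elim g (Sum.elim y' t))

lemma subZ_zt (u u' : Fin h → K) (g : Fin r → K) (y' : Fin h → K) (t : Fin n → K)
    (hu : ∀ a, u a = u' a * y' a) (hP : ∀ a ∈ P, u' a = 1) :
    subZ (Rm r n P) (zt u' g y' t) = Sum.elim u t := by
  classical
  funext j
  unfold subZ
  rw [Fintype.prod_sum_type, Fintype.prod_sum_type, Fintype.prod_sum_type]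
  rcases j with a | j
  · have h1 : ∏ x, zt u' g y' t (Sum.inl x) ^ Rm r n P (Sum.inl a) (Sum.inl x) = u' a := by
      rw [Finset.prod_eq_single a]
      · by_cases ha : a ∈ P
        · simp [Rm, zt, ha, hP a ha]
        · simp [Rm, zt, ha]
      · intro b _ hb
        by_cases ha : a ∈ P
        · simp [Rm, zt, ha]
        · simp [Rm, zt, ha, Pi.single_eq_of_ne hb]
      · intro ha
        exact absurd (Finset.mem_univ a) ha
    have h2 : ∏ x, zt u' g y' t (Sum.inr (Sum.inr (Sum.inl x))) ^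
        Rm r n P (Sum.inl a) (Sum.inr (Sum.inr (Sum.inl x))) = y' a := by
      rw [Finset.prod_eq_single a]
      · simp only [Rm, zt, Sum.elim_inl, Sum.elim_inr, Pi.single_eq_same, zpow_one]
      · intro b _ hb
        simp only [Rm, zt, Sum.elim_inl, Sum.elim_inr, Pi.single_eq_of_ne hb, zpow_zero]
      · intro ha
        exact absurd (Finset.mem_univ a) ha
    rw [h1, h2]
    simp [Rm, hu a]
  · have h2 : ∏ x, zt u' g y' t (Sum.inr (Sum.inr (Sum.inr x))) ^
        Rm r n P (Sum.inr j) (Sum.inr (Sum.inr (Sum.inr x))) = t j := by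
      rw [Finset.prod_eq_single j]
      · simp only [Rm, zt, Sum.elim_inl, Sum.elim_inr, Pi.single_eq_same, zpow_one]
      · intro b _ hb
        simp only [Rm, zt, Sum.elim_inl, Sum.elim_inr, Pi.single_eq_of_ne hb, zpow_zero]
      · intro ha
        exact absurd (Finset.mem_univ j) ha
    rw [h2]
    simp [Rm]

lemma Gt_lv {g : Fin r → K} {M : Fin h → Fin r → ℤ} {G : Fin q → (Fin h ⊕ Fin n → ℤ) →₀ k}
    {u u' y' : Fin h → K} {t : Fin n → K} (hu : ∀ a, u a = u' a * y' a)
    (hP : ∀ a ∈ P, u' a = 1) (hu0 : ∀ a, u' a ≠ 0) (hg0 : ∀ i, g i ≠ 0) (hy0 : ∀ a, y' a ≠ 0)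
    (ht0 : ∀ j, t j ≠ 0) (hM : ∀ a, y' a = ∏ i, g i ^ M a i)
    (hG : ∀ i, lv (G i) (Sum.elim u t) = 0) (e : St p (k₀ := k₀) h q g) :
    lv (Gt (k₀ := k₀) p g M P G e) (zt u' g y' t) = 0 := by
  classical
  have hp : p.Prime := Fact.out
  have hz : ∀ j, zt u' g y' t j ≠ 0 := by
    rintro (a | i | a | j)
    · exact hu0 a
    · exact hg0 i
    · exact hy0 a
    · exact ht0 j
  rcases e with c | ij | a | i
  · exact (linF_lv (k := k) (iV h r n) c.1 (zt u' g y' t)).trans c.2
  · refine biF_lv (ne_bi hp _ _) _ ?_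
    rw [prod_single, prod_single, zpow_one, zpow_natCast]
    exact ij.2
  · refine biF_lv (ne_mo _ _) _ ?_
    rw [prod_single, zpow_one, Fintype.prod_sum_type, Fintype.prod_sum_type]
    simp only [Mx, zt, Sum.elim_inl, Sum.elim_inr, Pi.zero_apply, zpow_zero,
      Finset.prod_const_one, one_mul, mul_one]
    exact hM a
  · have h1 := subF_lv (Rm_inj (r := r) (P := P)) (G i) (zt u' g y' t) hz
    rw [subZ_zt u u' g y' t hu hP] at h1
    exact h1.trans (hG i)

end eqs

section model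

variable {p : ℕ} [Fact p.Prime] {k₀ : Type*} {k K : Type u} [Field k₀] [Finite k₀] [CharP k₀ p]
  [Field k] [PerfectField k] [CharP k p] [Field K] [Algebra k₀ k] [Algebra k K] [Algebra k₀ K]
  [IsScalarTower k₀ k K] [CharP K p]
  {m n h c d l q s r o : ℕ} {E : Fin m → IntermediateField k K}

/-- The numbering of the variables. -/
def eY (h r n : ℕ) : (Fin r ⊕ (Fin h ⊕ Fin n)) ≃ Fin (r + (h + n)) :=
  (Equiv.sumCongr (Equiv.refl _) finSumFinEquiv).trans finSumFinEquiv

/-- The embedding of the variables. -/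
def iY (h r n : ℕ) : Jt h r n ↪ Fin h ⊕ Fin (r + (h + n)) :=
  ⟨Sum.map id (eY h r n), Function.Injective.sumMap Function.injective_id (eY h r n).injective⟩

lemma iY_right (j : Jt h r n) : (iY h r n j).isRight = j.isRight := by
  rcases j with j | j <;> rfl

lemma zt_iY (u' : Fin h → K) (b : Fin r ⊕ (Fin h ⊕ Fin n) → K) :
    (fun j => Sum.elim u' (b ∘ (eY h r n).symm) (iY h r n j)) = Sum.elim u' b := by
  funext j
  rcases j with j | j
  · rfl
  · change b ((eY h r n).symm (eY h r n j)) = b j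
    rw [Equiv.symm_apply_apply]

/-- The data of a base: all the equations. -/
structure BaseData (p : ℕ) [Fact p.Prime] {k₀ : Type*} {k K : Type u} [Field k₀] [Finite k₀]
    [CharP k₀ p] [Field k] [Field K] [CharP K p]
    [Algebra k₀ k] [Algebra k K] [Algebra k₀ K] {m n h d l q r : ℕ}
    (E : Fin m → IntermediateField k K) (V : Submodule k₀ K) (g : Fin r → K) (x : Fin l → K)
    (u : Fin h → K) (t : Fin n → K) (G : Fin q → (Fin h ⊕ Fin n → ℤ) →₀ k) (ρ : Fin d → Fin n)
    (c : ℕ) (P : Set (Fin h)) (uu : Fin h → ∀ i, E i) (y' : Fin h → K) (M : Fin h → Fin r → ℤ) :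
    Prop where
  surfaces : AreIndependentSurfaceFields E
  mem : ∀ i, g i ∈ V
  surj : ∀ v ∈ V, v ≠ 0 → ∃ i, g i = v
  ne : ∀ i, g i ≠ 0
  fin : FiniteDimensional k₀ V
  rank : Module.finrank k₀ V ≤ Module.finrank k₀ (powersIn p V) + l
  memx : ∀ i, x i ∈ V
  uu_ne : ∀ a i, uu a i ≠ 0
  uuP : ∀ a ∈ P, ∀ i, uu a i = 1
  prod : ∀ a, y' a = ∏ i, g i ^ M a i
  u_eq : ∀ a, u a = (∏ i, (uu a i : K)) * y' a
  t_ne : ∀ j, t j ≠ 0
  eqs : ∀ i, value (G i) u t = 0
  schon : SchonEquations G c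
  codim : c + d = n
  indep : AlgebraicIndependent (cps E) (Sum.elim x (t ∘ ρ))

variable {V : Submodule k₀ K} {g : Fin r → K} {x : Fin l → K} {u : Fin h → K} {t : Fin n → K}
  {G : Fin q → (Fin h ⊕ Fin n → ℤ) →₀ k} {ρ : Fin d → Fin n} {P : Set (Fin h)}
  {uu : Fin h → ∀ i, E i} {y' : Fin h → K} {M : Fin h → Fin r → ℤ}

/-- The setup for the black boxes. -/
theorem setup (hB : BaseData p E V g x u t G ρ c P uu y' M)
    (F : Fin s → (Fin h ⊕ Fin n → ℤ) →₀ k) (tw : Fin s → Prop)
    (hND : ∀ (w : Fin h ⊕ Fin n → ℤ) (z : Fin h ⊕ Fin n → AlgebraicClosure k), (∀ j, z j ≠ 0) →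
      (∀ i, vl (G i) w z = 0) → ∀ t, (tw t ∨ ∃ e ∈ (F t).support, ∑ j, w j * e j < 0) →
      gv (F t) (Function.Embedding.inr : Fin n ↪ Fin h ⊕ Fin n) w z ∉
        Submodule.span (AlgebraicClosure k)
          ((Set.range fun i => gv (G i) (Function.Embedding.inr : Fin n ↪ Fin h ⊕ Fin n) w z) ∪
            {v | ∃ t', t' ≠ t ∧ (tw t' ∨ ∃ e ∈ (F t').support, ∑ j, w j * e j ≤ 0) ∧
              v = gv (F t') (Function.Embedding.inr : Fin n ↪ Fin h ⊕ Fin n) w z})) :
    ∃ (C N : ℕ) (Y : Fin (r + (h + n)) → K) (ρ' : Fin (l + d) → Fin (r + (h + n)))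
      (G' : Fin N → (Fin h ⊕ Fin (r + (h + n)) → ℤ) →₀ k)
      (F' : Fin s → (Fin h ⊕ Fin (r + (h + n)) → ℤ) →₀ k),
      Y = Sum.elim g (Sum.elim y' t) ∘ (eY h r n).symm ∧ (∀ j, Y j ≠ 0) ∧
      C + (l + d) = r + (h + n) ∧ AlgebraicIndependent (cps E) (Y ∘ ρ') ∧
      (∀ e, lv (G' e) (Sum.elim (fun a => ∏ i, (uu a i : K)) Y) = 0) ∧
      (∀ e, lv (F' e) (Sum.elim (fun a => ∏ i, (uu a i : K)) Y) = value (F e) u t) ∧
      NDV G' F' (fun j => j.isRight = true) tw C ∧
      ((∀ t, ¬ tw t → (∀ i, ∀ e ∈ (G i).support, ∀ a, a ∉ P → e (Sum.inl a) = 0) ∧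
        ∀ e ∈ (F t).support, ∀ a, a ∉ P → e (Sum.inl a) = 0) →
        ∀ t, ¬ tw t → (∀ s, ∀ m ∈ (G' s).support, ∀ j, ¬ j.isRight = true →
          m j = 0) ∧ ∀ m ∈ (F' t).support, ∀ j, ¬ j.isRight = true → m j = 0) := by
  classical
  have hp : p.Prime := Fact.out
  obtain ⟨hE, hgV, hgs, hg0, hfin, hrk, hxV, huu0, huP, hM, hu, ht0, hG, hS, hcd, hind⟩ := hB
  let u' : Fin h → K := fun a => ∏ i, (uu a i : K)
  have hu'0 : ∀ a, u' a ≠ 0 := fun a => Finset.prod_ne_zero_iff.2 fun i _ h0 =>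
    huu0 a i (Subtype.ext h0)
  have hu'P : ∀ a ∈ P, u' a = 1 := fun a ha => Finset.prod_eq_one fun i _ => by
    rw [huP a ha i]; rfl
  have hy0 : ∀ a, y' a ≠ 0 := by
    intro a
    rw [hM a]
    exact Finset.prod_ne_zero_iff.2 fun i _ => zpow_ne_zero _ (hg0 i)
  -- the number of the independent elements
  have hxe : ∀ i, ∃ j, g j = x i := fun i =>
    hgs _ (hxV i) (by
      have h1 := hind.ne_zero (Sum.inl i)
      exact h1)
  choose ix hix using hxe
  have hixinj : Function.Injective ix := by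
    intro i j hij
    have h1 : x i = x j := by rw [← hix, ← hix, hij]
    have h2 := hind.injective (a₁ := Sum.inl i) (a₂ := Sum.inl j) h1
    exact Sum.inl_injective h2
  have hlr : l ≤ r := by
    have h1 := Fintype.card_le_of_injective ix hixinj
    simpa using h1
  obtain ⟨C, hC⟩ : ∃ C, C + (l + d) = r + (h + n) := ⟨r - l + h + c, by omega⟩
  have hfinSt : Finite (St p (k₀ := k₀) h q g) := by
    have : Finite (Fin r →₀ k₀) := Finite.of_equiv _ Finsupp.equivFunOnFinite.symm
    infer_instance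
  obtain ⟨N, ⟨ε⟩⟩ := Finite.exists_equiv_fin (St p (k₀ := k₀) h q g)
  have hnd := ndvc_add (k₀ := k₀) (P := P) (l := l) V M G F hgV hgs hrk hS hcd tw hND hC ε.symm
  have hnd2 := ndv_of_ndvc hnd
  have e1 : (fun j => j ∈ Set.range
      (Function.Embedding.inr : (Fin r ⊕ (Fin h ⊕ Fin n)) ↪ Jt h r n)) =
      fun j : Jt h r n => j.isRight = true := by
    funext j
    apply propext
    rcases j with j | j
    · constructor
      · rintro ⟨i, hi⟩
        exact absurd hi (by simp)
      · intro hi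
        exact absurd hi (by simp)
    · exact ⟨fun _ => rfl, fun _ => ⟨j, rfl⟩⟩
  rw [e1] at hnd2
  have hnd3 := hnd2.ext (iY h r n) (vt := fun j => j.isRight = true)
    (fun j hj => by rw [iY_right]; exact hj)
  let b : Fin r ⊕ (Fin h ⊕ Fin n) → K := Sum.elim g (Sum.elim y' t)
  have hb0 : ∀ j, b j ≠ 0 := by
    rintro (i | a | j)
    · exact hg0 i
    · exact hy0 a
    · exact ht0 j
  refine ⟨C, N, b ∘ (eY h r n).symm,
    fun i => eY h r n (Sum.elim (fun i => Sum.inl (ix i)) (fun j => Sum.inr (Sum.inr (ρ j)))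
      (finSumFinEquiv.symm i)),
    fun e => exF (iY h r n) (Gt (k₀ := k₀) p g M P G (ε.symm e)),
    fun e => exF (iY h r n) (subF (Rm_inj (r := r) (P := P)) (F e)), rfl,
    fun j => hb0 _, hC, ?_, ?_, ?_, hnd3, ?_⟩
  · have h1 : (b ∘ (eY h r n).symm) ∘ (fun i => eY h r n (Sum.elim (fun i => Sum.inl (ix i))
        (fun j => Sum.inr (Sum.inr (ρ j))) (finSumFinEquiv.symm i))) =
        (Sum.elim x (t ∘ ρ)) ∘ (finSumFinEquiv (m := l) (n := d)).symm := by
      funext i
      simp only [Function.comp_apply, Equiv.symm_apply_apply]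
      rcases (finSumFinEquiv (m := l) (n := d)).symm i with i | j
      · exact hix i
      · rfl
    rw [h1]
    exact hind.comp _ (finSumFinEquiv (m := l) (n := d)).symm.injective
  · intro e
    rw [exF_lv]
    have h1 := zt_iY (h := h) (r := r) (n := n) u' b
    change lv _ (fun j => Sum.elim u' (b ∘ (eY h r n).symm) (iY h r n j)) = 0
    rw [h1]
    exact Gt_lv (k₀ := k₀) (P := P) (u := u) (u' := u') hu hu'P hu'0 hg0 hy0 ht0 hM hG _
  · intro e
    rw [exF_lv]
    have h1 := zt_iY (h := h) (r := r) (n := n) u' b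
    change lv _ (fun j => Sum.elim u' (b ∘ (eY h r n).symm) (iY h r n j)) = _
    rw [h1]
    have hz : ∀ j, zt u' g y' t j ≠ 0 := by
      rintro (a | i | a | j)
      · exact hu'0 a
      · exact hg0 i
      · exact hy0 a
      · exact ht0 j
    have h1 := subF_lv (Rm_inj (r := r) (P := P)) (F e) (zt u' g y' t) hz
    rw [subZ_zt u u' g y' t hu hu'P] at h1
    exact h1
  · intro hun t1 ht1
    obtain ⟨hun1, hun2⟩ := hun t1 ht1
    have hsub : ∀ (A : (Fin h ⊕ Fin n → ℤ) →₀ k),
        (∀ e ∈ A.support, ∀ a, a ∉ P → e (Sum.inl a) = 0) →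
        ∀ m ∈ (subF (Rm_inj (r := r) (P := P)) A).support, ∀ j : Jt h r n,
          ¬ j.isRight = true → m j = 0 := by
      intro A hA m hm j hj
      rw [subF_support, Finset.mem_map] at hm
      obtain ⟨m0, hm0, rfl⟩ := hm
      rcases j with a | j
      · change subE (Rm r n P) m0 (Sum.inl a) = 0
        rw [Rm_u]
        by_cases ha : a ∈ P
        · rw [if_pos ha]
        · rw [if_neg ha]
          exact hA m0 hm0 a ha
      · exact absurd rfl hj
    refine ⟨?_, ?_⟩
    · intro e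
      refine exF_unt (iY h r n) (vt0 := fun j => j.isRight = true)
        (fun j hj => by rw [iY_right]; exact hj) ?_
      generalize ε.symm e = e'
      revert e'
      refine St_cases ?_ ?_
      · intro e' m hm j hj
        rcases j with a | j
        · exact Gt_support_u g M G e' m hm a
        · exact absurd rfl hj
      · intro i
        exact hsub (G i) (hun1 i)
    · refine exF_unt (iY h r n) (vt0 := fun j => j.isRight = true)
        (fun j hj => by rw [iY_right]; exact hj) ?_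
      exact hsub (F t1) hun2

end model

end Pool.Agent.Helper50.Add
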