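import Pool.Agent.Helper50.Add.Model2
import Pool.Agent.Helper50.Add.Defs

/-!
# Finitely many affine p-polynomials lie in a finite system
-/

set_option autoImplicit false
set_option linter.unusedVariables false
set_option linter.unusedSectionVars false

universe u

open Finsupp Pool.Agent.TH214 Pool.Agent.TH214.V Pool.Agent.W558 Pool.Agent.TH214.SD
  Pool.Agent.TH188.WP Pool.Agent.TH188.WQ Pool.Agent.TH188.VT Pool.Agent.TH188.VQ

namespace Pool.Agent.Helper50.Add

section field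

variable (p : ℕ) [hp : Fact p.Prime] (k : Type u) [Field k] [CharP k p]

/-- The elements `a` with `a ^ (p ^ N) = a`. -/
def kN (N : ℕ) : Subfield k where
  carrier := {a | a ^ p ^ N = a}
  zero_mem' := zero_pow (pow_ne_zero _ hp.out.ne_zero)
  one_mem' := one_pow _
  add_mem' := by
    intro a b ha hb
    have h1 := add_pow_char_pow (p := p) (n := N) a b
    change (a + b) ^ p ^ N = a + b
    rw [h1]
    exact congrArg₂ (· + ·) ha hb
  neg_mem' := by
    intro a ha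
    change (-a) ^ p ^ N = -a
    have h1 : (-a + a) ^ p ^ N = (-a) ^ p ^ N + a ^ p ^ N := add_pow_char_pow (p := p) (n := N) _ _
    rw [neg_add_cancel, zero_pow (pow_ne_zero _ hp.out.ne_zero)] at h1
    have h2 : a ^ p ^ N = a := ha
    rw [h2] at h1
    exact (neg_eq_of_add_eq_zero_left h1.symm).symm
  mul_mem' := by
    intro a b ha hb
    change (a * b) ^ p ^ N = a * b
    rw [mul_pow]
    exact congrArg₂ (· * ·) ha hb
  inv_mem' := by
    intro a ha
    change (a⁻¹) ^ p ^ N = a⁻¹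
    rw [inv_pow]
    exact congrArg (·⁻¹) ha

lemma mem_kN {N : ℕ} {a : k} : a ∈ kN p k N ↔ a ^ p ^ N = a := Iff.rfl

lemma kN_dvd {N N' : ℕ} (h : N ∣ N') {a : k} (ha : a ∈ kN p k N) : a ∈ kN p k N' := by
  obtain ⟨m, rfl⟩ := h
  rw [mem_kN] at ha ⊢
  induction m with
  | zero => simp
  | succ m ih => rw [Nat.mul_succ, pow_add, pow_mul, ih, ha]

lemma kN_finite {N : ℕ} (hN : 0 < N) : Finite (kN p k N) := by
  classical
  have h1 : ((Polynomial.X ^ p ^ N - Polynomial.X : Polynomial k)) ≠ 0 :=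
    FiniteField.X_pow_card_pow_sub_X_ne_zero k hN.ne' hp.out.one_lt
  have h2 : (kN p k N : Set k) ⊆ ((Polynomial.X ^ p ^ N - Polynomial.X : Polynomial k).roots.toFinset : Set k) := by
    intro a ha
    rw [Finset.mem_coe, Multiset.mem_toFinset, Polynomial.mem_roots h1, Polynomial.IsRoot.def,
      Polynomial.eval_sub, Polynomial.eval_pow, Polynomial.eval_X, sub_eq_zero]
    exact ha
  exact (Finset.finite_toSet _).subset h2

end field

section span

variable (p : ℕ) [hp : Fact p.Prime] {k K : Type u} [Field k] [CharP k p] [Field K] [Algebra k K]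
  [CharP K p] {l : ℕ} (x : Fin l → K)

/-- The space of the affine `p`-polynomials of degree at most `p ^ D`. -/
def Vm (k : Type u) [Field k] [CharP k p] [Algebra k K] (N D : ℕ) : Submodule (kN p k N) K :=
  Submodule.span (kN p k N) (insert 1 (Set.range fun q : Fin l × Fin (D + 1) => x q.1 ^ p ^ (q.2 : ℕ)))

lemma Vm_x (N D : ℕ) (i : Fin l) : x i ∈ Vm p x k N D := by
  refine Submodule.subset_span (Or.inr ⟨(i, 0), ?_⟩)
  simp

lemma Vm_fd (N D : ℕ) : FiniteDimensional (kN p k N) (Vm p x k N D) :=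
  FiniteDimensional.span_of_finite _ ((Set.finite_range _).insert _)

lemma Vm_rank {N : ℕ} (hN : 0 < N) (D : ℕ) [Finite (kN p k N)] [CharP (kN p k N) p] :
    Module.finrank (kN p k N) (Vm p x k N D) ≤
      Module.finrank (kN p k N) (powersIn p (Vm p x k N D)) + l := by
  classical
  have hfd := Vm_fd (k := k) p x N D
  have hfd1 : FiniteDimensional (kN p k N) (powersIn p (Vm p x k N D)) :=
    Submodule.finiteDimensional_of_le (powersIn_le p _)
  let X : Submodule (kN p k N) K := Submodule.span (kN p k N) (Set.range x)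
  have hfd2 : FiniteDimensional (kN p k N) X :=
    FiniteDimensional.span_of_finite _ (Set.finite_range _)
  have h1 : Vm p x k N D ≤ powersIn p (Vm p x k N D) ⊔ X := by
    refine Submodule.span_le.2 ?_
    rintro v (rfl | ⟨⟨i, j, hj⟩, rfl⟩)
    · refine Submodule.mem_sup_left ?_
      have h2 : (1 : K) ∈ Vm p x k N D := Submodule.subset_span (Or.inl rfl)
      exact ⟨h2, 1, h2, one_pow _⟩
    · rcases j with - | j
      · refine Submodule.mem_sup_right (Submodule.subset_span ⟨i, ?_⟩)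
        simp
      · refine Submodule.mem_sup_left ⟨Submodule.subset_span (Or.inr ⟨(i, ⟨j + 1, hj⟩), rfl⟩),
          x i ^ p ^ j, Submodule.subset_span (Or.inr ⟨(i, ⟨j, by omega⟩), rfl⟩), ?_⟩
        simp only
        rw [← pow_mul, ← pow_succ]
  have h2 := Submodule.finrank_mono h1
  have h3 := Submodule.finrank_add_le_finrank_add_finrank (powersIn p (Vm p x k N D)) X
  have h4 : Module.finrank (kN p k N) X ≤ l := by
    have h5 := finrank_range_le_card (R := kN p k N) x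
    rwa [Fintype.card_fin] at h5
  omega

lemma poly_mem {g : K} (hg : g ∈ pPolynomials p k x) :
    ∃ N, 0 < N ∧ ∃ D, ∀ N', 0 < N' → N ∣ N' → ∀ D', D ≤ D' → g ∈ Vm p x k N' D' := by
  refine AddSubgroup.closure_induction (p := fun g _ => ∃ N, 0 < N ∧ ∃ D, ∀ N', 0 < N' →
    N ∣ N' → ∀ D', D ≤ D' → g ∈ Vm p x k N' D') ?_ ?_ ?_ ?_ hg
  · rintro b ⟨a, ⟨N, hN, haN⟩, hb⟩
    have hsm : ∀ N', N ∣ N' → ∀ (V : Submodule (kN p k N') K) (v : K), v ∈ V →
        algebraMap k K a * v ∈ V := by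
      intro N' hdvd V v hv
      have h1 : a ∈ kN p k N' := kN_dvd p k hdvd haN
      have h2 := V.smul_mem (⟨a, h1⟩ : kN p k N') hv
      have h3 : (⟨a, h1⟩ : kN p k N') • v = algebraMap k K a * v := by
        rw [← Algebra.smul_def]
        rfl
      rwa [h3] at h2
    rcases hb with rfl | ⟨i, j, rfl⟩
    · refine ⟨N, hN, 0, fun N' hN' hdvd D' hD' => ?_⟩
      have h1 : (1 : K) ∈ Vm p x k N' D' := Submodule.subset_span (Or.inl rfl)
      have h2 := hsm N' hdvd _ 1 h1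
      rwa [mul_one] at h2
    · refine ⟨N, hN, j, fun N' hN' hdvd D' hD' => hsm N' hdvd _ _ ?_⟩
      exact Submodule.subset_span (Or.inr ⟨(i, ⟨j, by omega⟩), rfl⟩)
  · exact ⟨1, one_pos, 0, fun N' _ _ D' _ => Submodule.zero_mem _⟩
  · rintro a b _ _ ⟨N1, hN1, D1, h1⟩ ⟨N2, hN2, D2, h2⟩
    refine ⟨N1 * N2, Nat.mul_pos hN1 hN2, max D1 D2, fun N' hN' hd D' hD' => ?_⟩
    exact Submodule.add_mem _ (h1 N' hN' ((Dvd.intro _ rfl).trans hd) D'
      ((le_max_left _ _).trans hD')) (h2 N' hN' ((Dvd.intro_left _ rfl).trans hd) D'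
      ((le_max_right _ _).trans hD'))
  · rintro a _ ⟨N, hN, D, h1⟩
    exact ⟨N, hN, D, fun N' hN' hd D' hD' => Submodule.neg_mem _ (h1 N' hN' hd D' hD')⟩

lemma prod_mem' {b : K} (hb : IsPolynomialProduct p k x b) :
    ∃ N, 0 < N ∧ ∃ D, ∀ N', 0 < N' → N ∣ N' → ∀ D', D ≤ D' →
      b ∈ Submonoid.closure {g : K | g ≠ 0 ∧ (g ∈ Vm p x k N' D' ∨ g⁻¹ ∈ Vm p x k N' D')} := by
  refine Submonoid.closure_induction (motive := fun b _ => ∃ N, 0 < N ∧ ∃ D, ∀ N', 0 < N' →
    N ∣ N' → ∀ D', D ≤ D' → b ∈ Submonoid.closure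
      {g : K | g ≠ 0 ∧ (g ∈ Vm p x k N' D' ∨ g⁻¹ ∈ Vm p x k N' D')}) ?_ ?_ ?_ hb
  · rintro g ⟨hg0, hg | hg⟩
    · obtain ⟨N, hN, D, h1⟩ := poly_mem p x hg
      exact ⟨N, hN, D, fun N' hN' hd D' hD' =>
        Submonoid.subset_closure ⟨hg0, Or.inl (h1 N' hN' hd D' hD')⟩⟩
    · obtain ⟨N, hN, D, h1⟩ := poly_mem p x hg
      exact ⟨N, hN, D, fun N' hN' hd D' hD' =>
        Submonoid.subset_closure ⟨hg0, Or.inr (h1 N' hN' hd D' hD')⟩⟩
  · exact ⟨1, one_pos, 0, fun N' _ _ D' _ => Submonoid.one_mem _⟩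
  · rintro a b _ _ ⟨N1, hN1, D1, h1⟩ ⟨N2, hN2, D2, h2⟩
    refine ⟨N1 * N2, Nat.mul_pos hN1 hN2, max D1 D2, fun N' hN' hd D' hD' => ?_⟩
    exact Submonoid.mul_mem _ (h1 N' hN' ((Dvd.intro _ rfl).trans hd) D'
      ((le_max_left _ _).trans hD')) (h2 N' hN' ((Dvd.intro_left _ rfl).trans hd) D'
      ((le_max_right _ _).trans hD'))

/-- Products as monomials. -/
lemma closure_exp {r : ℕ} {g : Fin r → K} {V : Set K} (hg0 : ∀ i, g i ≠ 0)
    (hgs : ∀ v ∈ V, v ≠ 0 → ∃ i, g i = v) {b : K}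
    (hb : b ∈ Submonoid.closure {g : K | g ≠ 0 ∧ (g ∈ V ∨ g⁻¹ ∈ V)}) :
    ∃ e : Fin r → ℤ, b = ∏ i, g i ^ e i := by
  classical
  refine Submonoid.closure_induction (motive := fun b _ => ∃ e : Fin r → ℤ, b = ∏ i, g i ^ e i)
    ?_ ?_ ?_ hb
  · rintro v ⟨hv0, hv | hv⟩
    · obtain ⟨i, hi⟩ := hgs v hv hv0
      refine ⟨Pi.single i 1, ?_⟩
      rw [prod_single, zpow_one, hi]
    · obtain ⟨i, hi⟩ := hgs v⁻¹ hv (inv_ne_zero hv0)
      refine ⟨Pi.single i (-1), ?_⟩
      rw [prod_single, zpow_neg_one, hi, inv_inv]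
  · exact ⟨0, by simp⟩
  · rintro a b _ _ ⟨e1, rfl⟩ ⟨e2, rfl⟩
    refine ⟨e1 + e2, ?_⟩
    rw [← Finset.prod_mul_distrib]
    refine Finset.prod_congr rfl fun i _ => ?_
    rw [Pi.add_apply, zpow_add₀ (hg0 i)]

/-- A finite system containing given products. -/
lemma exists_system {ι : Type*} [Finite ι] (b : ι → K) (hb : ∀ i, IsPolynomialProduct p k x (b i)) :
    ∃ (N D : ℕ), 0 < N ∧ ∀ i, b i ∈ Submonoid.closure
      {g : K | g ≠ 0 ∧ (g ∈ Vm p x k N D ∨ g⁻¹ ∈ Vm p x k N D)} := by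
  classical
  cases nonempty_fintype ι
  choose N hN D h using fun i => prod_mem' p x (hb i)
  refine ⟨∏ i, N i, ∑ i, D i, Finset.prod_pos fun i _ => hN i, fun i => ?_⟩
  exact h i _ (Finset.prod_pos fun i _ => hN i) (Finset.dvd_prod_of_mem _ (Finset.mem_univ i)) _
    (Finset.single_le_sum (f := D) (fun _ _ => Nat.zero_le _) (Finset.mem_univ i))

end span

end Pool.Agent.Helper50.Add
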