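import Pool.Agent.Helper50.Add.Laurent

/-!
# The system of equations of an additive arrangement over a base, with schön equations over it
-/

set_option autoImplicit false
set_option linter.unusedVariables false
set_option linter.unusedSectionVars false

universe u

open Finsupp Pool.Agent.TH214 Pool.Agent.TH214.V Pool.Agent.W558 Pool.Agent.TH214.SD

namespace Pool.Agent.Helper50.Add

/-- The annihilator of the rows `r s`. -/
def ann {κ σ J : Type*} [Field κ] [Fintype J] (r : σ → J → κ) : Submodule κ (J → κ) where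
  carrier := {a | ∀ s, ∑ j, r s j * a j = 0}
  zero_mem' := fun s => by simp
  add_mem' := by
    intro a b ha hb s
    have h1 := ha s
    have h2 := hb s
    simp only [Pi.add_apply, mul_add, Finset.sum_add_distrib]
    rw [h1, h2, add_zero]
  smul_mem' := by
    intro c a ha s
    have h1 := ha s
    have h2 : ∑ j, r s j * (c • a) j = c * ∑ j, r s j * a j := by
      rw [Finset.mul_sum]
      refine Finset.sum_congr rfl fun j _ => ?_
      rw [Pi.smul_apply, smul_eq_mul]
      ring
    rw [h2, h1, mul_zero]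

lemma mem_ann {κ σ J : Type*} [Field κ] [Fintype J] {r : σ → J → κ} {a : J → κ} :
    a ∈ ann r ↔ ∀ s, ∑ j, r s j * a j = 0 := Iff.rfl

section frob

variable (p : ℕ) [Fact p.Prime] {k₀ K : Type*} [Field k₀] [Finite k₀] [CharP k₀ p] [Field K]
  [Algebra k₀ K] [CharP K p]

/-- The `p`-th powers of elements of `V` which lie in `V`. -/
def powersIn (V : Submodule k₀ K) : Submodule k₀ K where
  carrier := {v | v ∈ V ∧ ∃ u ∈ V, u ^ p = v}
  zero_mem' := ⟨V.zero_mem, 0, V.zero_mem, zero_pow (Fact.out : p.Prime).ne_zero⟩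
  add_mem' := by
    rintro a b ⟨ha, u, hu, rfl⟩ ⟨hb, w, hw, rfl⟩
    exact ⟨V.add_mem ha hb, u + w, V.add_mem hu hw, add_pow_char _ _ _⟩
  smul_mem' := by
    rintro c a ⟨ha, u, hu, rfl⟩
    obtain ⟨b, hb⟩ : ∃ b : k₀, b ^ p = c := by
      have h1 : Function.Surjective (frobenius k₀ p) :=
        Finite.surjective_of_injective (frobenius_inj k₀ p)
      obtain ⟨b, hb⟩ := h1 c
      exact ⟨b, hb⟩
    refine ⟨V.smul_mem c ha, b • u, V.smul_mem b hu, ?_⟩
    rw [Algebra.smul_def, Algebra.smul_def, mul_pow, ← map_pow, hb]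

lemma mem_powersIn {V : Submodule k₀ K} {v : K} :
    v ∈ powersIn p V ↔ v ∈ V ∧ ∃ u ∈ V, u ^ p = v := Iff.rfl

lemma powersIn_le (V : Submodule k₀ K) : powersIn p V ≤ V := fun _ h => h.1

end frob

section system

/-- The variables. -/
abbrev Jt (h r n : ℕ) : Type := Fin h ⊕ (Fin r ⊕ (Fin h ⊕ Fin n))

/-- The additive variables. -/
def iV (h r n : ℕ) : Fin r ↪ Jt h r n :=
  Function.Embedding.inl.trans Function.Embedding.inr

open Classical in
/-- The matrix of the substitution `u a ↦ (u a) * (y a)` (or `u a ↦ y a` for `a ∈ P`), `t j ↦ t j`. -/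
noncomputable def Rm {h : ℕ} (r n : ℕ) (P : Set (Fin h)) : Fin h ⊕ Fin n → Jt h r n → ℤ :=
  Sum.elim
    (fun a => Sum.elim (if a ∈ P then 0 else Pi.single a 1) (Sum.elim 0 (Sum.elim (Pi.single a 1) 0)))
    (fun j => Sum.elim 0 (Sum.elim 0 (Sum.elim 0 (Pi.single j 1))))

variable {h r n q s : ℕ} {P : Set (Fin h)}

lemma Rm_y (m : Fin h ⊕ Fin n → ℤ) (a : Fin h) :
    subE (Rm r n P) m (Sum.inr (Sum.inr (Sum.inl a))) = m (Sum.inl a) := by
  classical
  unfold subE Rm
  rw [Fintype.sum_sum_type]
  simp [Pi.single_apply]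

lemma Rm_t (m : Fin h ⊕ Fin n → ℤ) (j : Fin n) :
    subE (Rm r n P) m (Sum.inr (Sum.inr (Sum.inr j))) = m (Sum.inr j) := by
  classical
  unfold subE Rm
  rw [Fintype.sum_sum_type]
  simp [Pi.single_apply]

lemma Rm_inj : Function.Injective (subE (Rm (h := h) r n P)) := by
  intro m m' hm
  funext j
  rcases j with a | j
  · rw [← Rm_y (r := r) (P := P) m a, hm, Rm_y]
  · rw [← Rm_t (r := r) (P := P) m j, hm, Rm_t]

lemma Rm_u (m : Fin h ⊕ Fin n → ℤ) (a : Fin h) :
    subE (Rm r n P) m (Sum.inl a) = (open Classical in if a ∈ P then 0 else m (Sum.inl a)) := by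
  classical
  unfold subE Rm
  rw [Fintype.sum_sum_type]
  simp only [Sum.elim_inl, Sum.elim_inr, Pi.zero_apply, mul_zero, Finset.sum_const_zero, add_zero]
  rw [Finset.sum_eq_single a]
  · by_cases ha : a ∈ P
    · simp [ha]
    · simp [ha]
  · intro b _ hb
    by_cases hbP : b ∈ P
    · simp [hbP]
    · simp [hbP, Pi.single_eq_of_ne hb.symm]
  · intro ha
    exact absurd (Finset.mem_univ a) ha

variable {k₀ : Type*} {k K : Type u} [Field k₀] [Finite k₀] [Field k] [Field K] [Algebra k₀ k]
  [Algebra k K] [Algebra k₀ K] [IsScalarTower k₀ k K] {p : ℕ} [Fact p.Prime] [CharP k p]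

/-- The exponents of the additive products. -/
def Mx (M : Fin h → Fin r → ℤ) (n : ℕ) (a : Fin h) : Jt h r n → ℤ :=
  Sum.elim 0 (Sum.elim (M a) 0)

/-- The types of the equations. -/
abbrev St (p : ℕ) {k₀ K : Type*} [Field k₀] [Field K] [Algebra k₀ K] {r : ℕ} (h q : ℕ)
    (g : Fin r → K) : Type _ :=
  {c : Fin r →₀ k₀ // linearCombination k₀ g c = 0} ⊕
    ({ij : Fin r × Fin r // g ij.2 = g ij.1 ^ p} ⊕ (Fin h ⊕ Fin q))

/-- The equations. -/
noncomputable def Gt (p : ℕ) (g : Fin r → K) (M : Fin h → Fin r → ℤ) (P : Set (Fin h))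
    (G : Fin q → (Fin h ⊕ Fin n → ℤ) →₀ k) : St p (k₀ := k₀) h q g → (Jt h r n → ℤ) →₀ k :=
  Sum.elim (fun c => linF k (iV h r n) c.1)
    (Sum.elim (fun ij => biF k (Pi.single (iV h r n ij.1.2) 1) (Pi.single (iV h r n ij.1.1) p))
      (Sum.elim (fun a => biF k (Pi.single (Sum.inr (Sum.inr (Sum.inl a))) 1) (Mx M n a))
        (fun i => subF (Rm_inj (P := P)) (G i))))

omit [Finite k₀] [IsScalarTower k₀ k K] [Fact p.Prime] [CharP k p] in
lemma ne_bi (hp : p.Prime) (i j : Fin r) :
    (Pi.single (iV h r n j) 1 : Jt h r n → ℤ) ≠ Pi.single (iV h r n i) (p : ℤ) := by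
  intro h1
  have h2 := congrFun h1 (iV h r n j)
  rw [Pi.single_eq_same] at h2
  by_cases hij : iV h r n j = iV h r n i
  · rw [hij, Pi.single_eq_same] at h2
    have := hp.one_lt
    omega
  · rw [Pi.single_eq_of_ne hij] at h2
    exact one_ne_zero h2

lemma ne_mo (M : Fin h → Fin r → ℤ) (a : Fin h) :
    (Pi.single (Sum.inr (Sum.inr (Sum.inl a))) 1 : Jt h r n → ℤ) ≠ Mx M n a := by
  intro h1
  have h2 := congrFun h1 (Sum.inr (Sum.inr (Sum.inl a)))
  rw [Pi.single_eq_same] at h2
  simp [Mx] at h2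

/-- The direction with vanishing components on the parameters. -/
def dirE {κ : Type u} [Field κ] {A B : Type} (b : B → κ) : A ⊕ B → κ := Sum.elim 0 b

lemma der_dir {κ : Type u} [Field κ] [Algebra k κ] {A B : Type} [Fintype A] [Fintype B]
    (F : (A ⊕ B → ℤ) →₀ k) (l : A ⊕ B → ℤ) (z : A ⊕ B → κ) (b : B → κ) :
    der F l z (dirE b) = ∑ j, gv F (Function.Embedding.inr : B ↪ A ⊕ B) l z j * b j := by
  rw [der_gv F (Function.Embedding.inr : B ↪ A ⊕ B) l z (dirE b)]
  · refine Finset.sum_congr rfl fun j _ => ?_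
    rw [mul_comm]
    rfl
  · rintro (j | j) hj
    · rfl
    · exact absurd ⟨j, rfl⟩ hj

section ndvc

variable (V : Submodule k₀ K) {g : Fin r → K}
  (M : Fin h → Fin r → ℤ) (G : Fin q → (Fin h ⊕ Fin n → ℤ) →₀ k)
  {c l d : ℕ}

/-- The dimension of the tangent spaces. -/
theorem ann_finrank {κ : Type u} [Field κ] [Algebra k κ] [Algebra k₀ κ] [tow : IsScalarTower k₀ k κ]
    [CharP k₀ p] [CharP K p] (hgV : ∀ i, g i ∈ V)
    (hgs : ∀ v ∈ V, v ≠ 0 → ∃ i, g i = v) [FiniteDimensional k₀ V]
    (hrk : Module.finrank k₀ V ≤ Module.finrank k₀ (powersIn p V) + l)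
    (hcd : c + d = n)
    (w : Jt h r n → ℤ) (z : Jt h r n → κ) (hz : ∀ j, z j ≠ 0)
    (hv : ∀ e, vl (Gt (k₀ := k₀) p g M P G e) w z = 0)
    (hS : (∀ i, vl (G i) (subL (Rm r n P) w) (subZ (Rm r n P) z) = 0) →
      c ≤ Module.finrank κ (Submodule.span κ (Set.range fun i =>
        gv (G i) (Function.Embedding.inr : Fin n ↪ Fin h ⊕ Fin n) (subL (Rm r n P) w)
          (subZ (Rm r n P) z)))) :
    Module.finrank κ
      (ann fun e => gv (Gt (k₀ := k₀) p g M P G e)
        (Function.Embedding.inr : (Fin r ⊕ (Fin h ⊕ Fin n)) ↪ Jt h r n) w z) ≤ l + d := by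
  classical
  have hp : p.Prime := Fact.out
  have hcκ : CharP κ p := charP_of_injective_algebraMap (algebraMap k κ).injective p
  let A := ann fun e => gv (Gt (k₀ := k₀) p g M P G e)
        (Function.Embedding.inr : (Fin r ⊕ (Fin h ⊕ Fin n)) ↪ Jt h r n) w z
  have hA : ∀ b ∈ A, ∀ e, der (Gt (k₀ := k₀) p g M P G e) w z (dirE b) = 0 := by
    intro b hb e
    rw [der_dir]
    exact hb e
  let π : (Fin r ⊕ (Fin h ⊕ Fin n) → κ) →ₗ[κ] (Fin r → κ) :=
    LinearMap.funLeft κ κ Sum.inl
  -- the image
  let g' : Fin r → V := fun i => ⟨g i, hgV i⟩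
  have hlc : ∀ c : Fin r →₀ k₀, linearCombination k₀ g' c = 0 → linearCombination k₀ g c = 0 := by
    intro c hc
    have h1 : (V.subtype) (linearCombination k₀ g' c) = linearCombination k₀ g c := by
      rw [Finsupp.linearCombination_apply, Finsupp.linearCombination_apply, Finsupp.sum,
        Finsupp.sum, map_sum]
      rfl
    rw [← h1, hc, map_zero]
  have hT : Trop k₀ g' (fun i => w (iV h r n i)) (fun i => z (iV h r n i)) := by
    refine trop_of (k := k) fun c hc => ?_
    have h1 := hv (Sum.inl ⟨c, hlc c hc⟩)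
    have h2 := linF_vl (k := k) (iV h r n) c w z
    rw [← h2]
    exact h1
  let W : Submodule k₀ V := (powersIn p V).comap V.subtype
  have hWf : Module.finrank k₀ W = Module.finrank k₀ (powersIn p V) :=
    (Submodule.comapSubtypeEquivOfLe (powersIn_le p V)).finrank_eq
  have himg : Module.finrank κ (A.map π) ≤ l := by
    have h1 := tangent hT (fun i => hz _) (fun v hv0 => by
      obtain ⟨i, hi⟩ := hgs v.1 v.2 (fun h => hv0 (Subtype.ext h))
      exact ⟨i, 1, one_ne_zero, by rw [one_smul]; exact Subtype.ext hi.symm⟩) W (A.map π) (by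
      rintro a ⟨b, hb, rfl⟩
      refine trop_of (k := k) fun c hc => ?_
      have h1 := hA b hb (Sum.inl ⟨c, hlc c hc⟩)
      have h2 := linF_der (k := k) (iV h r n) c w z (dirE b)
      rw [← h1]
      exact h2.symm) (by
      rintro a ⟨b, hb, rfl⟩ i hi
      obtain ⟨hi1, x, hx, hxi⟩ := hi
      have hx0 : x ≠ 0 := by
        rintro rfl
        have h3 : linearCombination k₀ g (single i (1 : k₀)) = 0 := by
          rw [linearCombination_single, one_smul]
          have h4 : g i = (0 : K) ^ p := hxi.symm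
          rw [h4, zero_pow hp.ne_zero]
        have h4 := hv (Sum.inl ⟨single i 1, h3⟩)
        have h5 := linF_vl (k := k) (iV h r n) (single i (1 : k₀)) w z
        have h6 : vl (linF k (iV h r n) (single i (1 : k₀))) w z = 0 := h4
        have h7 : (single i (1 : k₀)).support = {i} := by
          ext j
          simp [eq_comm]
        rw [h5, h7, Finset.sum_filter,
          Finset.sum_singleton, if_pos (by simp), Finsupp.single_eq_same, map_one, map_one,
          one_mul] at h6
        exact hz _ h6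
      obtain ⟨j, hj⟩ := hgs x hx hx0
      have hij : g i = g j ^ p := by rw [hj]; exact hxi.symm
      have h7 := biF_der (ne_bi (h := h) (n := n) hp j i) w z hz
        (hv (Sum.inr (Sum.inl ⟨(j, i), hij⟩))) (dirE b)
        (hA b hb (Sum.inr (Sum.inl ⟨(j, i), hij⟩)))
      rw [sum_single', sum_single'] at h7
      have h8 : (((p : ℕ) : ℤ) : κ) = 0 := by
        rw [Int.cast_natCast]
        exact CharP.cast_eq_zero κ p
      rw [h8, zero_mul, Int.cast_one, one_mul] at h7
      exact h7)
    rw [hWf] at h1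
    omega
  -- the kernel
  let u0 : Fin h ⊕ Fin n → κ := subZ (Rm r n P) z
  let l0 : Fin h ⊕ Fin n → ℤ := subL (Rm r n P) w
  have hu0 : ∀ j, u0 j ≠ 0 := fun j => Finset.prod_ne_zero_iff.2 fun i _ => zpow_ne_zero _ (hz i)
  have hvG : ∀ i, vl (G i) l0 u0 = 0 := by
    intro i
    have h1 := hv (Sum.inr (Sum.inr (Sum.inr i)))
    have h2 := subF_vl (Rm_inj (r := r) (P := P)) (G i) w z hz
    exact h2.symm.trans h1
  have hS1 : c ≤ Module.finrank κ (Submodule.span κ (Set.range fun i =>
        gv (G i) (Function.Embedding.inr : Fin n ↪ Fin h ⊕ Fin n) l0 u0)) := hS hvG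
  have hrel := rank_ann (κ := κ)
    (fun i => gv (G i) (Function.Embedding.inr : Fin n ↪ Fin h ⊕ Fin n) l0 u0)
    (ann fun i => gv (G i) (Function.Embedding.inr : Fin n ↪ Fin h ⊕ Fin n) l0 u0)
    (fun a => Iff.rfl)
  rw [Fintype.card_fin] at hrel
  have hker : Module.finrank κ (LinearMap.ker (π.domRestrict A)) ≤
      Module.finrank κ (ann fun i => gv (G i) (Function.Embedding.inr : Fin n ↪ Fin h ⊕ Fin n) l0 u0) := by
    let ψ : LinearMap.ker (π.domRestrict A) →ₗ[κ] (ann fun i => gv (G i) (Function.Embedding.inr : Fin n ↪ Fin h ⊕ Fin n) l0 u0) :=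
      LinearMap.codRestrict _ ((LinearMap.funLeft κ κ fun j : Fin n =>
        (Sum.inr (Sum.inr j) : Fin r ⊕ (Fin h ⊕ Fin n))).comp
          (A.subtype.comp (LinearMap.ker (π.domRestrict A)).subtype)) (by
        rintro ⟨⟨b, hb⟩, hb0⟩
        have hb1 : ∀ i, b (Sum.inl i) = 0 := fun i => congrFun (LinearMap.mem_ker.1 hb0) i
        have hb2 : ∀ a, b (Sum.inr (Sum.inl a)) = 0 := by
          intro a
          have h7 := biF_der (ne_mo (n := n) M a) w z hz
            (hv (Sum.inr (Sum.inr (Sum.inl a)))) (dirE b)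
            (hA b hb (Sum.inr (Sum.inr (Sum.inl a))))
          rw [sum_single', Int.cast_one, one_mul] at h7
          have h8 : ∑ j, ((Mx M n a j : ℤ) : κ) * dirE b j = 0 := by
            refine Finset.sum_eq_zero fun j _ => ?_
            rcases j with j | j | j
            · simp [dirE]
            · simp [dirE, hb1]
            · simp [Mx]
          rw [h8] at h7
          exact h7
        intro i
        have h1 := hA b hb (Sum.inr (Sum.inr (Sum.inr i)))
        have h2 := subF_der (Rm_inj (r := r) (P := P)) (G i) w z (dirE b) hz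
        have h3 : der (G i) l0 u0 (subA (Rm r n P) (dirE b)) = 0 := h2.symm.trans h1
        have h4 : subA (Rm r n P) (dirE b) = dirE (fun j : Fin n => b (Sum.inr (Sum.inr j))) := by
          funext j
          unfold subA
          rcases j with a | j
          · change _ = (0 : κ)
            refine Finset.sum_eq_zero fun x _ => ?_
            rcases x with x | x | x | x
            · simp [dirE]
            · simp [dirE, hb1]
            · simp [dirE, hb2]
            · simp [Rm]
          · change _ = b (Sum.inr (Sum.inr j))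
            rw [Finset.sum_eq_single (Sum.inr (Sum.inr (Sum.inr j)))]
            · simp [Rm, dirE]
            · intro x _ hx
              rcases x with x | x | x | x
              · simp [Rm]
              · simp [Rm]
              · simp [Rm]
              · have hne : x ≠ j := fun h => hx (by rw [h])
                have h6 : (Rm r n P (Sum.inr j) (Sum.inr (Sum.inr (Sum.inr x))) : ℤ) = 0 := by
                  simp only [Rm, Sum.elim_inr]
                  exact Pi.single_eq_of_ne hne _
                rw [h6, Int.cast_zero, zero_mul]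
            · intro h5
              exact absurd (Finset.mem_univ _) h5
        rw [h4, der_dir] at h3
        exact h3)
    refine LinearMap.finrank_le_finrank_of_injective (f := ψ) ?_
    intro x1 x2 h12
    obtain ⟨b, hbdef⟩ : ∃ b : Fin r ⊕ (Fin h ⊕ Fin n) → κ, b = x1.1.1 - x2.1.1 := ⟨_, rfl⟩
    have hb : b ∈ A := by
      rw [hbdef]
      exact A.sub_mem x1.1.2 x2.1.2
    have hb1 : ∀ i, b (Sum.inl i) = 0 := by
      intro i
      have h1 : x1.1.1 (Sum.inl i) = 0 := congrFun (LinearMap.mem_ker.1 x1.2) i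
      have h2 : x2.1.1 (Sum.inl i) = 0 := congrFun (LinearMap.mem_ker.1 x2.2) i
      rw [hbdef, Pi.sub_apply, h1, h2, sub_zero]
    have hb3 : ∀ j, b (Sum.inr (Sum.inr j)) = 0 := by
      intro j
      rw [hbdef, Pi.sub_apply]
      exact sub_eq_zero.2 (congrFun (congrArg Subtype.val h12) j)
    have hb2 : ∀ a, b (Sum.inr (Sum.inl a)) = 0 := by
      intro a
      have h7 := biF_der (ne_mo (n := n) M a) w z hz
        (hv (Sum.inr (Sum.inr (Sum.inl a)))) (dirE b)
        (hA b hb (Sum.inr (Sum.inr (Sum.inl a))))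
      rw [sum_single', Int.cast_one, one_mul] at h7
      have h8 : ∑ j, ((Mx M n a j : ℤ) : κ) * dirE b j = 0 := by
        refine Finset.sum_eq_zero fun j _ => ?_
        rcases j with j | j | j
        · simp [dirE]
        · simp [dirE, hb1]
        · simp [Mx]
      rw [h8] at h7
      exact h7
    apply Subtype.ext
    apply Subtype.ext
    rw [← sub_eq_zero, ← hbdef]
    funext j
    rcases j with j | j | j
    · exact hb1 j
    · exact hb2 j
    · exact hb3 j
  have htot := LinearMap.finrank_range_add_finrank_ker (π.domRestrict A)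
  rw [LinearMap.range_domRestrict] at htot
  change Module.finrank κ A ≤ l + d
  omega

end ndvc

end system

end Pool.Agent.Helper50.Add
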